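import Mathlib
import Pool.Agent.H820R5.BW.Minor

/-!
Generalized Laplace expansion: the minors of a matrix whose entries are divided into two parts are
sums of products of minors of the parts.
-/

set_option autoImplicit false

namespace Pool.Agent.H964R6

open Finset Pool.Agent.H820R5.BW

variable {K : Type*} [CommRing K] {a b : ℕ}

/-- sign of an element in a set -/
def sg {a : ℕ} (R : Finset (Fin a)) (i : Fin a) : ℤ := (-1) ^ (R.filter (· < i)).card

/-- sign of a pair of sets -/
def tau {a : ℕ} (P Q : Finset (Fin a)) : ℤ := ∏ q ∈ Q, (-1) ^ (P.filter (q < ·)).card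

theorem idx_card {a q : ℕ} {R : Finset (Fin a)} (hq : R.card = q) (k : Fin q) :
    (R.filter (· < R.orderEmbOfFin hq k)).card = k := by
  have h : R.filter (· < R.orderEmbOfFin hq k) =
      (univ.filter (· < k)).image (R.orderEmbOfFin hq) := by
    ext x
    simp only [mem_filter, mem_image, mem_univ, true_and]
    constructor
    · rintro ⟨hx, hlt⟩
      obtain ⟨m, -, rfl⟩ := mem_image.1 (by rw [Finset.image_orderEmbOfFin_univ R hq]; exact hx :
        x ∈ univ.image (R.orderEmbOfFin hq))
      exact ⟨m, (OrderEmbedding.lt_iff_lt _).1 hlt, rfl⟩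
    · rintro ⟨m, hm, rfl⟩
      exact ⟨Finset.orderEmbOfFin_mem _ _ _, (OrderEmbedding.lt_iff_lt _).2 hm⟩
  rw [h, card_image_of_injective _ (R.orderEmbOfFin hq).injective]
  have h2 : (univ.filter (· < k)) = Finset.Iio k := by
    ext x
    simp only [mem_filter, mem_univ, true_and, mem_Iio]
  rw [h2, Fin.card_Iio]

theorem mn_empty (B : Matrix (Fin a) (Fin b) K) : mn B ∅ ∅ = 1 := by
  have : IsEmpty (Fin (∅ : Finset (Fin a)).card) := by
    rw [card_empty]
    infer_instance
  unfold mn
  split_ifs with h
  · exact Matrix.det_isEmpty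
  · exact absurd (by rw [card_empty, card_empty]) h

/-- the change of one entry, with signs -/
theorem mn_upd' (B : Matrix (Fin a) (Fin b) K) (i : Fin a) (j : Fin b) (h0 : B i j = 0)
    (R : Finset (Fin a)) (C : Finset (Fin b)) (v : K) :
    mn (upd B i j v) R C = mn B R C +
      (if i ∈ R ∧ j ∈ C then ((sg R i * sg C j : ℤ) : K) * v * mn B (R.erase i) (C.erase j)
        else 0) := by
  classical
  by_cases hij : i ∈ R ∧ j ∈ C
  · by_cases hc : C.card = R.card
    · obtain ⟨q, hq⟩ : ∃ q, R.card = q + 1 := ⟨R.card - 1, by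
        have := Finset.card_pos.2 ⟨i, hij.1⟩; omega⟩
      have hq2 : C.card = q + 1 := hc.trans hq
      obtain ⟨e, he⟩ : ∃ e : Fin (q+1) → Fin a, e = ⇑(R.orderEmbOfFin hq) := ⟨_, rfl⟩
      obtain ⟨f, hf⟩ : ∃ f : Fin (q+1) → Fin b, f = ⇑(C.orderEmbOfFin hq2) := ⟨_, rfl⟩
      have hem : StrictMono e := by rw [he]; exact (R.orderEmbOfFin hq).strictMono
      have hfm : StrictMono f := by rw [hf]; exact (C.orderEmbOfFin hq2).strictMono
      have hR : univ.image e = R := by
        rw [he]; exact Finset.image_orderEmbOfFin_univ R hq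
      have hC : univ.image f = C := by
        rw [hf]; exact Finset.image_orderEmbOfFin_univ C hq2
      obtain ⟨k, -, hk⟩ := mem_image.1 (by rw [hR]; exact hij.1 : i ∈ univ.image e)
      obtain ⟨l, -, hl⟩ := mem_image.1 (by rw [hC]; exact hij.2 : j ∈ univ.image f)
      have hsk : sg R i = (-1) ^ (k : ℕ) := by
        unfold sg
        rw [← hk, he, idx_card hq k]
      have hsl : sg C j = (-1) ^ (l : ℕ) := by
        unfold sg
        rw [← hl, hf, idx_card hq2 l]
      rw [if_pos hij, mn_eq _ e f hem hfm hR hC, mn_eq B e f hem hfm hR hC,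
        mn_eq B (e ∘ k.succAbove) (f ∘ l.succAbove) (hem.comp (Fin.strictMono_succAbove k))
          (hfm.comp (Fin.strictMono_succAbove l))
          (by rw [← hk]; exact erase_image hR hem.injective k)
          (by rw [← hl]; exact erase_image hC hfm.injective l),
        det_upd_aux B i j v h0 e f hem.injective hfm.injective k l hk hl, hsk, hsl]
      push_cast
      ring
    · rw [mn_card hc, mn_card hc, mn_card (B := B) (R := R.erase i) (C := C.erase j)]
      · simp
      · rw [card_erase_of_mem hij.1, card_erase_of_mem hij.2]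
        have h1 := Finset.card_pos.2 ⟨i, hij.1⟩
        have h2 := Finset.card_pos.2 ⟨j, hij.2⟩
        omega
  · rw [if_neg hij, add_zero]
    unfold mn
    split_ifs with h
    · congr 1
      ext x y
      simp only [Matrix.submatrix_apply, upd]
      rw [if_neg]
      rintro ⟨h1, h2⟩
      exact hij ⟨by rw [← h1]; exact Finset.orderEmbOfFin_mem _ _ _,
        by rw [← h2]; exact Finset.orderEmbOfFin_mem _ _ _⟩
    · rfl

theorem sign_split {a : ℕ} {R R₁ : Finset (Fin a)} {i : Fin a} (hi : i ∈ R) (hi₁ : i ∉ R₁)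
    (h : R₁ ⊆ R) : sg R i * tau R₁ ((R \ R₁).erase i) =
      (-1) ^ R₁.card * (tau R₁ (R \ R₁) * sg (R \ R₁) i) := by
  classical
  have h1 : sg R i = sg R₁ i * sg (R \ R₁) i := by
    unfold sg
    rw [← pow_add, ← card_union_of_disjoint, ← filter_union, union_sdiff_of_subset h]
    exact disjoint_filter_filter disjoint_sdiff
  have h2 : tau R₁ (R \ R₁) = (-1) ^ (R₁.filter (i < ·)).card * tau R₁ ((R \ R₁).erase i) := by
    unfold tau
    rw [Finset.mul_prod_erase (R \ R₁) (fun q => (-1 : ℤ) ^ (R₁.filter (q < ·)).card)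
      (mem_sdiff.2 ⟨hi, hi₁⟩)]
  have h3 : R₁.card = (R₁.filter (· < i)).card + (R₁.filter (i < ·)).card := by
    rw [← card_union_of_disjoint]
    · congr 1
      ext x
      simp only [mem_union, mem_filter]
      constructor
      · intro hx
        rcases lt_trichotomy x i with h | h | h
        · exact Or.inl ⟨hx, h⟩
        · exact absurd (h ▸ hx) hi₁
        · exact Or.inr ⟨hx, h⟩
      · rintro (h | h) <;> exact h.1
    · rw [disjoint_filter]
      intro x _ h4 h5
      exact absurd (h4.trans h5) (lt_irrefl _)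
  rw [h1, h2, h3]
  unfold sg
  have h4 : ((-1 : ℤ) ^ (R₁.filter (i < ·)).card) * (-1) ^ (R₁.filter (i < ·)).card = 1 := by
    rw [← pow_add, ← two_mul, pow_mul]
    simp
  rw [pow_add]
  linear_combination (-((-1 : ℤ) ^ (R₁.filter (· < i)).card *
    (-1) ^ ((R \ R₁).filter (· < i)).card * tau R₁ ((R \ R₁).erase i))) * h4

/-- the entries of `A` with places in `S` -/
def part (A : Matrix (Fin a) (Fin b) K) (S : Finset (Fin a × Fin b)) :
    Matrix (Fin a) (Fin b) K := fun i j => if (i, j) ∈ S then A i j else 0

theorem part_insert (A : Matrix (Fin a) (Fin b) K) (S : Finset (Fin a × Fin b)) (i : Fin a)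
    (j : Fin b) : part A (insert (i, j) S) = upd (part A S) i j (A i j) := by
  ext i' j'
  simp only [part, upd, mem_insert, Prod.mk.injEq]
  by_cases h : i' = i ∧ j' = j
  · rw [if_pos (Or.inl h), if_pos h, h.1, h.2]
  · simp [h]

/-- **Generalized Laplace expansion.** -/
theorem mn_union (A : Matrix (Fin a) (Fin b) K) (S T : Finset (Fin a × Fin b))
    (h : Disjoint S T) (R : Finset (Fin a)) (C : Finset (Fin b)) :
    mn (part A (S ∪ T)) R C = ∑ x ∈ R.powerset ×ˢ C.powerset,
      ((tau x.1 (R \ x.1) * tau x.2 (C \ x.2) : ℤ) : K) *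
        (mn (part A S) x.1 x.2 * mn (part A T) (R \ x.1) (C \ x.2)) := by
  classical
  induction T using Finset.induction_on generalizing R C with
  | empty =>
    have h0 : part A (∅ : Finset (Fin a × Fin b)) = 0 := by
      ext i j
      simp [part]
    rw [union_empty, h0, Finset.sum_eq_single (R, C)]
    · have h1 : R \ R = ∅ := Finset.sdiff_self R
      have h2 : C \ C = ∅ := Finset.sdiff_self C
      simp only [h1, h2, mn_empty]
      simp [tau]
    · intro x hx hne
      rw [mem_product, mem_powerset, mem_powerset] at hx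
      have h2 : (R \ x.1).Nonempty ∨ (C \ x.2).Nonempty := by
        by_contra hcon
        push Not at hcon
        rw [sdiff_eq_empty_iff_subset, sdiff_eq_empty_iff_subset] at hcon
        exact hne (Prod.ext (hx.1.antisymm hcon.1) (hx.2.antisymm hcon.2))
      rcases h2 with ⟨i, hi⟩ | ⟨j, hj⟩
      · rw [mn_row_zero (0 : Matrix (Fin a) (Fin b) K) hi (fun _ => rfl)]
        simp
      · rw [mn_col_zero (0 : Matrix (Fin a) (Fin b) K) hj (fun _ => rfl)]
        simp
    · intro hx
      exact absurd (mem_product.2 ⟨mem_powerset_self _, mem_powerset_self _⟩) hx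
  | insert e T he ih =>
    obtain ⟨i, j⟩ := e
    rw [disjoint_insert_right] at h
    have hU : S ∪ insert (i, j) T = insert (i, j) (S ∪ T) := union_insert _ _ _
    have hST : (i, j) ∉ S ∪ T := by
      rw [mem_union]
      rintro (h1 | h1)
      · exact h.1 h1
      · exact he h1
    rw [hU, part_insert, mn_upd' _ i j (by simp only [part]; rw [if_neg hST]), ih h.2]
    have e1 : ∀ R' C', mn (part A (insert (i, j) T)) R' C' = mn (part A T) R' C' +
        (if i ∈ R' ∧ j ∈ C' then ((sg R' i * sg C' j : ℤ) : K) * A i j *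
          mn (part A T) (R'.erase i) (C'.erase j) else 0) := by
      intro R' C'
      rw [part_insert, mn_upd' _ i j (by simp only [part]; rw [if_neg he])]
    simp only [e1, mul_add, Finset.sum_add_distrib]
    congr 1
    by_cases hij : i ∈ R ∧ j ∈ C
    · rw [if_pos hij, ih h.2, Finset.mul_sum]
      have e2 : (R.erase i).powerset ×ˢ (C.erase j).powerset =
          (R.powerset ×ˢ C.powerset).filter (fun x => i ∉ x.1 ∧ j ∉ x.2) := by
        ext x
        simp only [mem_product, mem_powerset, mem_filter, subset_erase]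
        tauto
      rw [e2, Finset.sum_filter]
      refine Finset.sum_congr rfl fun x hx => ?_
      rw [mem_product, mem_powerset, mem_powerset] at hx
      by_cases hx2 : i ∉ x.1 ∧ j ∉ x.2
      · rw [if_pos hx2, if_pos ⟨mem_sdiff.2 ⟨hij.1, hx2.1⟩, mem_sdiff.2 ⟨hij.2, hx2.2⟩⟩]
        rw [erase_sdiff_comm, erase_sdiff_comm]
        by_cases hc : x.2.card = x.1.card
        · have h1 := sign_split hij.1 hx2.1 hx.1
          have h2 := sign_split hij.2 hx2.2 hx.2
          have h3 : ((-1 : ℤ) ^ x.1.card) * (-1) ^ x.2.card = 1 := by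
            rw [hc, ← pow_add, ← two_mul, pow_mul]
            simp
          have h4 : sg R i * sg C j * (tau x.1 ((R \ x.1).erase i) * tau x.2 ((C \ x.2).erase j)) =
              (tau x.1 (R \ x.1) * tau x.2 (C \ x.2)) * (sg (R \ x.1) i * sg (C \ x.2) j) := by
            calc _ = (sg R i * tau x.1 ((R \ x.1).erase i)) *
                  (sg C j * tau x.2 ((C \ x.2).erase j)) := by ring
              _ = _ := by
                rw [h1, h2]
                linear_combination (tau x.1 (R \ x.1) * sg (R \ x.1) i *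
                  (tau x.2 (C \ x.2) * sg (C \ x.2) j)) * h3
          have h5 : ((sg R i * sg C j * (tau x.1 ((R \ x.1).erase i) *
              tau x.2 ((C \ x.2).erase j)) : ℤ) : K) = ((tau x.1 (R \ x.1) * tau x.2 (C \ x.2) *
              (sg (R \ x.1) i * sg (C \ x.2) j) : ℤ) : K) := by
            rw [h4]
          push_cast at h5 ⊢
          linear_combination (A i j * (mn (part A S) x.1 x.2 *
            mn (part A T) ((R \ x.1).erase i) ((C \ x.2).erase j))) * h5
        · rw [mn_card hc]
          ring
      · rw [if_neg hx2, if_neg]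
        · simp
        · rintro ⟨h1, h2⟩
          exact hx2 ⟨(mem_sdiff.1 h1).2, (mem_sdiff.1 h2).2⟩
    · rw [if_neg hij]
      symm
      refine Finset.sum_eq_zero fun x hx => ?_
      rw [if_neg]
      · simp
      · rintro ⟨h1, h2⟩
        exact hij ⟨(mem_sdiff.1 h1).1, (mem_sdiff.1 h2).1⟩

end Pool.Agent.H964R6
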