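import Mathlib
import Pool.Agent.H964R6.Lap

/-!
The minors of a matrix which contain all but `m` rows and columns have at most `m² + 1` parameters
(Plücker coordinates).
-/

set_option autoImplicit false

namespace Pool.Agent.H964R6

open Pool.Agent.H820R5.BW

section exch

variable {S : Type*} [CommRing S] {m : ℕ} {ι : Type*}

/-- the maximal minor with the columns `c` -/
noncomputable def vm (G : Matrix (Fin m) ι S) (c : Fin m → ι) : S := (G.submatrix id c).det

theorem updateCol_eq (G : Matrix (Fin m) ι S) (c : Fin m → ι) (l : Fin m) (x : ι) :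
    (G.submatrix id c).updateCol l (fun i => G i x) = G.submatrix id (Function.update c l x) := by
  ext i j
  rw [Matrix.updateCol_apply]
  by_cases h : j = l
  · subst h
    simp
  · simp [h]

/-- The exchange relation (Plücker relation). -/
theorem exchange (G : Matrix (Fin m) ι S) (c₀ c : Fin m → ι) (l : Fin m) :
    vm G c₀ * vm G c =
      ∑ t, vm G (Function.update c₀ t (c l)) * vm G (Function.update c l (c₀ t)) := by
  classical
  set A := G.submatrix id c₀ with hA
  set M := G.submatrix id c with hM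
  set b : Fin m → S := fun i => G i (c l) with hb
  have h1 : Matrix.cramer M b l = M.det := by
    rw [Matrix.cramer_apply, hM, hb, updateCol_eq, Function.update_eq_self]
  have h2 : A.det • b = ∑ t, Matrix.cramer A b t • (fun i => A i t) := by
    rw [← Matrix.mulVec_cramer]
    funext i
    rw [Matrix.mulVec, dotProduct, Finset.sum_apply]
    refine Finset.sum_congr rfl fun t _ => ?_
    rw [Pi.smul_apply, smul_eq_mul, mul_comm]
  have h3 : A.det * M.det = Matrix.cramer M (A.det • b) l := by
    rw [map_smul, Pi.smul_apply, h1, smul_eq_mul]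
  have h4 : vm G c₀ * vm G c = A.det * M.det := rfl
  rw [h4, h3, h2, map_sum, Finset.sum_apply]
  refine Finset.sum_congr rfl fun t _ => ?_
  rw [map_smul, Pi.smul_apply, smul_eq_mul, Matrix.cramer_apply, Matrix.cramer_apply]
  have h5 : (fun i => A i t) = fun i => G i (c₀ t) := by
    funext i
    simp [hA]
  rw [h5, hA, hM, hb, updateCol_eq, updateCol_eq]
  rfl

theorem vm_eq_zero (G : Matrix (Fin m) ι S) {c : Fin m → ι} {i j : Fin m} (h : i ≠ j)
    (hc : c i = c j) : vm G c = 0 :=
  Matrix.det_zero_of_column_eq h fun k => by simp [hc]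

theorem vm_perm (G : Matrix (Fin m) ι S) (c₀ : Fin m → ι) (π : Equiv.Perm (Fin m)) :
    vm G (c₀ ∘ π) = ((Equiv.Perm.sign π : ℤ) : S) * vm G c₀ := by
  unfold vm
  rw [← Matrix.det_permute' π]
  rfl

/-- A derivation which kills a maximal minor and its neighbours kills all of them. -/
theorem der_minors [IsDomain S] {F : Type*} [CommRing F] [Algebra F S] (D : Derivation F S S)
    [DecidableEq ι] (G : Matrix (Fin m) ι S) (P B : Finset ι) (c₀ : Fin m → ι)
    (h₀ : vm G c₀ ≠ 0) (hc₀ : ∀ t, c₀ t ∈ P ∨ c₀ t ∈ B) (hP₀ : ∀ x ∈ P, ∃ t, c₀ t = x) (hD₀ : D (vm G c₀) = 0)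
    (hD : ∀ t, c₀ t ∉ P → ∀ x ∈ B, D (vm G (Function.update c₀ t x)) = 0) (c : Fin m → ι)
    (hc : ∀ l, c l ∈ P ∨ c l ∈ B) (hP : ∀ x ∈ P, ∃ t, c t = x) : D (vm G c) = 0 := by
  classical
  obtain ⟨k, hk⟩ : ∃ k, (Finset.univ.filter fun l => ∀ t, c₀ t ≠ c l).card = k := ⟨_, rfl⟩
  induction k using Nat.strong_induction_on generalizing c with
  | _ k ih =>
    by_cases hl : ∃ l, ∀ t, c₀ t ≠ c l
    · obtain ⟨l, hl⟩ := hl
      have hlP : c l ∉ P := fun h => by
        obtain ⟨t, ht⟩ := hP₀ _ h
        exact hl t ht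
      have hlB : c l ∈ B := (hc l).resolve_left hlP
      have hsum : D (vm G c₀ * vm G c) = 0 := by
        rw [exchange G c₀ c l, map_sum]
        refine Finset.sum_eq_zero fun t _ => ?_
        by_cases ht : c₀ t ∈ P
        · obtain ⟨l', hl'⟩ := hP _ ht
          have hne : l' ≠ l := by
            rintro rfl
            exact hl t hl'.symm
          rw [vm_eq_zero G (c := Function.update c l (c₀ t)) hne, mul_zero, map_zero]
          rw [Function.update_of_ne hne, Function.update_self, hl']
        · have h1 := hD t ht _ hlB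
          by_cases htc : ∃ l', l' ≠ l ∧ c l' = c₀ t
          · obtain ⟨l', hne, hl'⟩ := htc
            rw [vm_eq_zero G (c := Function.update c l (c₀ t)) hne, mul_zero, map_zero]
            rw [Function.update_of_ne hne, Function.update_self, hl']
          by_cases htB : c₀ t ∈ B
          · have h2 : D (vm G (Function.update c l (c₀ t))) = 0 := by
              refine ih _ ?_ (Function.update c l (c₀ t)) ?_ ?_ rfl
              · rw [← hk]
                refine Finset.card_lt_card ?_
                rw [Finset.ssubset_iff_of_subset]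
                · refine ⟨l, ?_, ?_⟩
                  · simpa using hl
                  · simp only [Finset.mem_filter, Finset.mem_univ, true_and, not_forall,
                      not_not, Function.update_self]
                    exact ⟨t, rfl⟩
                · intro l' hl'
                  simp only [Finset.mem_filter, Finset.mem_univ, true_and] at hl' ⊢
                  by_cases h : l' = l
                  · subst h
                    exact hl
                  · rwa [Function.update_of_ne h] at hl'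
              · intro l'
                by_cases h : l' = l
                · subst h
                  rw [Function.update_self]
                  exact Or.inr htB
                · rw [Function.update_of_ne h]
                  exact hc l'
              · intro x hx
                obtain ⟨t', ht'⟩ := hP x hx
                have h : t' ≠ l := by
                  rintro rfl
                  exact hlP (ht' ▸ hx)
                exact ⟨t', by rw [Function.update_of_ne h, ht']⟩
            rw [Derivation.leibniz, h1, h2, smul_zero, smul_zero, add_zero]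
          · exact absurd (hc₀ t) (by tauto)
      rw [Derivation.leibniz, hD₀, smul_zero, add_zero, smul_eq_mul] at hsum
      exact (mul_eq_zero.1 hsum).resolve_left h₀
    · push Not at hl
      choose π hπ using hl
      by_cases hinj : Function.Injective π
      · have he : c = c₀ ∘ Equiv.ofBijective π (Finite.injective_iff_bijective.1 hinj) := by
          funext l
          rw [Function.comp_apply, Equiv.ofBijective_apply, hπ]
        rw [he, vm_perm, Derivation.leibniz, hD₀, smul_zero, zero_add]
        have : D ((Equiv.Perm.sign (Equiv.ofBijective π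
          (Finite.injective_iff_bijective.1 hinj)) : ℤ) : S) = 0 := Derivation.map_intCast D _
        rw [this, smul_zero]
      · rw [Function.Injective] at hinj
        push Not at hinj
        obtain ⟨i, j, hij, hne⟩ := hinj
        rw [vm_eq_zero G hne (by rw [← hπ i, ← hπ j, hij]), map_zero]

end exch

section minors

variable {S : Type*} [CommRing S] {a b : ℕ}

/-- the matrix `(N | 1)` -/
def ext1 (N : Matrix (Fin a) (Fin b) S) : Matrix (Fin a) (Fin b ⊕ Fin a) S :=
  Matrix.fromCols N 1

open Classical in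
/-- the choice of columns which gives a minor -/
noncomputable def colsOf (X : Finset (Fin a)) (Y : Finset (Fin b)) (h : Y.card = X.card) :
    Fin a → Fin b ⊕ Fin a := fun i =>
  if hi : i ∈ X then Sum.inl (Y.orderEmbOfFin h ((X.orderIsoOfFin rfl).symm ⟨i, hi⟩))
  else Sum.inr i

theorem colsOf_cases (X : Finset (Fin a)) (Y : Finset (Fin b)) (h : Y.card = X.card) (i : Fin a) :
    (∃ y ∈ Y, colsOf X Y h i = Sum.inl y) ∨ (i ∉ X ∧ colsOf X Y h i = Sum.inr i) := by
  unfold colsOf
  by_cases hi : i ∈ X
  · rw [dif_pos hi]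
    exact Or.inl ⟨_, Finset.orderEmbOfFin_mem _ _ _, rfl⟩
  · rw [dif_neg hi]
    exact Or.inr ⟨hi, rfl⟩

theorem colsOf_inl (X : Finset (Fin a)) (Y : Finset (Fin b)) (h : Y.card = X.card) {y : Fin b}
    (hy : y ∈ Y) : ∃ i, colsOf X Y h i = Sum.inl y := by
  classical
  obtain ⟨k, -, hk⟩ := Finset.mem_image.1 (by
    rw [Finset.image_orderEmbOfFin_univ Y h]; exact hy :
      y ∈ Finset.univ.image (Y.orderEmbOfFin h))
  refine ⟨(X.orderIsoOfFin rfl k : X), ?_⟩
  unfold colsOf
  rw [dif_pos (X.orderIsoOfFin rfl k).2]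
  rw [← hk]
  congr 2
  exact (X.orderIsoOfFin rfl).symm_apply_apply k

theorem colsOf_inr (X : Finset (Fin a)) (Y : Finset (Fin b)) (h : Y.card = X.card) {i : Fin a}
    (hi : i ∉ X) : colsOf X Y h i = Sum.inr i := by
  unfold colsOf
  rw [dif_neg hi]

theorem mn_eq_vm (N : Matrix (Fin a) (Fin b) S) (X : Finset (Fin a)) (Y : Finset (Fin b))
    (h : Y.card = X.card) : mn N X Y = vm (ext1 N) (colsOf X Y h) := by
  classical
  unfold vm
  rw [Matrix.twoBlockTriangular_det _ (fun i => i ∉ X)]
  · have h1 : Matrix.toSquareBlockProp ((ext1 N).submatrix id (colsOf X Y h))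
        (fun i => i ∉ X) = 1 := by
      ext i j
      rw [Matrix.toSquareBlockProp_def, Matrix.of_apply, Matrix.submatrix_apply,
        colsOf_inr X Y h j.2, ext1, Matrix.fromCols_apply_inr, Matrix.one_apply, Matrix.one_apply]
      simp [Subtype.ext_iff]
    rw [h1, Matrix.det_one, one_mul]
    unfold mn
    rw [dif_pos h]
    let e : Fin X.card ≃ {i // ¬ i ∉ X} :=
      (X.orderIsoOfFin rfl).toEquiv.trans (Equiv.subtypeEquivRight fun i => by simp)
    rw [← Matrix.det_submatrix_equiv_self e]
    congr 1
    ext i j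
    rw [Matrix.submatrix_apply, Matrix.submatrix_apply, Matrix.toSquareBlockProp_def,
      Matrix.of_apply, Matrix.submatrix_apply]
    have h2 : ((e i : {i // ¬ i ∉ X}) : Fin a) = X.orderEmbOfFin rfl i := rfl
    have h3 : colsOf X Y h ((e j : {i // ¬ i ∉ X}) : Fin a) = Sum.inl (Y.orderEmbOfFin h j) := by
      have hmem : ((e j : {i // ¬ i ∉ X}) : Fin a) ∈ X := (X.orderIsoOfFin rfl j).2
      unfold colsOf
      rw [dif_pos hmem]
      congr 2
      exact (X.orderIsoOfFin rfl).symm_apply_apply j
    rw [h3, h2, ext1, Matrix.fromCols_apply_inl]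
    rfl
  · intro i hi j hj
    rw [Matrix.submatrix_apply, colsOf_inr X Y h hj, ext1, Matrix.fromCols_apply_inr,
      Matrix.one_apply_ne]
    rintro rfl
    exact hi hj

/-- **The minors with given private rows and columns have few parameters.** -/
theorem minors_params [IsDomain S] (F : Type*) [CommRing F] [Algebra F S]
    (N : Matrix (Fin a) (Fin b) S) (R R' : Finset (Fin a)) (C C' : Finset (Fin b)) (w : ℕ)
    (hR : R'.card ≤ w) (hC : C'.card ≤ w) :
    ∃ T : Finset S, T.card ≤ (2 * w) ^ 2 + 1 ∧ ∀ D : Derivation F S S, (∀ x ∈ T, D x = 0) →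
      ∀ X Y, R ⊆ X → X ⊆ R ∪ R' → C ⊆ Y → Y ⊆ C ∪ C' → D (mn N X Y) = 0 := by
  classical
  by_cases hex : ∃ X₀ Y₀, (R ⊆ X₀ ∧ X₀ ⊆ R ∪ R') ∧ (C ⊆ Y₀ ∧ Y₀ ⊆ C ∪ C') ∧ mn N X₀ Y₀ ≠ 0
  swap
  · refine ⟨∅, by simp, fun D _ X Y h1 h2 h3 h4 => ?_⟩
    have : mn N X Y = 0 := by
      by_contra hne
      exact hex ⟨X, Y, ⟨h1, h2⟩, ⟨h3, h4⟩, hne⟩
    rw [this, map_zero]
  obtain ⟨X₀, Y₀, ⟨hX1, hX2⟩, ⟨hY1, hY2⟩, hne⟩ := hex
  have hcard : Y₀.card = X₀.card := by
    by_contra hcon
    exact hne (mn_card hcon)
  set c₀ := colsOf X₀ Y₀ hcard with hc₀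
  set P : Finset (Fin b ⊕ Fin a) := C.image Sum.inl ∪ ((R ∪ R')ᶜ).image Sum.inr with hP
  set B : Finset (Fin b ⊕ Fin a) := C'.image Sum.inl ∪ R'.image Sum.inr with hB
  have hBcard : B.card ≤ 2 * w := by
    refine (Finset.card_union_le _ _).trans ?_
    have h1 : (C'.image (Sum.inl : Fin b → Fin b ⊕ Fin a)).card ≤ w :=
      Finset.card_image_le.trans hC
    have h2 : (R'.image (Sum.inr : Fin a → Fin b ⊕ Fin a)).card ≤ w :=
      Finset.card_image_le.trans hR
    omega
  have hv₀ : vm (ext1 N) c₀ ≠ 0 := by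
    rw [hc₀, ← mn_eq_vm]
    exact hne
  have hPB : ∀ X Y (h : Y.card = X.card), R ⊆ X → Y ⊆ C ∪ C' → ∀ l,
      colsOf X Y h l ∈ P ∨ colsOf X Y h l ∈ B := by
    intro X Y h h1 h2 l
    rcases colsOf_cases X Y h l with ⟨y, hy, he⟩ | ⟨hl, he⟩
    · rw [he]
      rcases Finset.mem_union.1 (h2 hy) with h' | h'
      · exact Or.inl (Finset.mem_union_left _ (Finset.mem_image_of_mem _ h'))
      · exact Or.inr (Finset.mem_union_left _ (Finset.mem_image_of_mem _ h'))
    · rw [he]
      by_cases h' : l ∈ R'
      · exact Or.inr (Finset.mem_union_right _ (Finset.mem_image_of_mem _ h'))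
      · refine Or.inl (Finset.mem_union_right _ (Finset.mem_image_of_mem _ ?_))
        rw [Finset.mem_compl, Finset.mem_union]
        rintro (h'' | h'')
        · exact hl (h1 h'')
        · exact h' h''
  have hPr : ∀ X Y (h : Y.card = X.card), X ⊆ R ∪ R' → C ⊆ Y → ∀ x ∈ P,
      ∃ t, colsOf X Y h t = x := by
    intro X Y h h1 h2 x hx
    rcases Finset.mem_union.1 hx with h' | h'
    · obtain ⟨y, hy, rfl⟩ := Finset.mem_image.1 h'
      exact colsOf_inl X Y h (h2 hy)
    · obtain ⟨i, hi, rfl⟩ := Finset.mem_image.1 h'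
      exact ⟨i, colsOf_inr X Y h fun hiX => (Finset.mem_compl.1 hi) (h1 hiX)⟩
  have hinj : Function.Injective c₀ := by
    intro i j hij
    by_contra h
    exact hv₀ (vm_eq_zero _ h hij)
  have hTcard : (Finset.univ.filter fun t => c₀ t ∉ P).card ≤ 2 * w := by
    refine le_trans ?_ hBcard
    rw [← Finset.card_image_of_injective _ hinj]
    refine Finset.card_le_card ?_
    intro x hx
    obtain ⟨t, ht, rfl⟩ := Finset.mem_image.1 hx
    rw [Finset.mem_filter] at ht
    exact (hPB X₀ Y₀ hcard hX1 hY2 t).resolve_left ht.2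
  refine ⟨insert (vm (ext1 N) c₀) (((Finset.univ.filter fun t => c₀ t ∉ P) ×ˢ B).image
    fun x => vm (ext1 N) (Function.update c₀ x.1 x.2)), ?_, ?_⟩
  · refine (Finset.card_insert_le _ _).trans (Nat.add_le_add_right ?_ 1)
    refine Finset.card_image_le.trans ?_
    rw [Finset.card_product, sq]
    exact Nat.mul_le_mul hTcard hBcard
  · intro D hD X Y h1 h2 h3 h4
    by_cases hXY : Y.card = X.card
    · rw [mn_eq_vm N X Y hXY]
      refine der_minors D (ext1 N) P B c₀ hv₀ (hPB X₀ Y₀ hcard hX1 hY2)
        (hPr X₀ Y₀ hcard hX2 hY1) (hD _ (Finset.mem_insert_self _ _)) ?_ _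
        (hPB X Y hXY h1 h4) (hPr X Y hXY h2 h3)
      intro t ht x hx
      refine hD _ (Finset.mem_insert_of_mem (Finset.mem_image.2 ⟨(t, x), ?_, rfl⟩))
      exact Finset.mem_product.2 ⟨Finset.mem_filter.2 ⟨Finset.mem_univ _, ht⟩, hx⟩
    · rw [mn_card hXY, map_zero]

end minors

end Pool.Agent.H964R6
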