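import Mathlib
import Pool.Agent.H964R5.Net
import Pool.Agent.H964R6.Lap

/-!
Minors of polynomial matrices with a branch decomposition of width `w` are computed by tree tensor
networks of bond dimension `4 ^ w`.
-/

set_option autoImplicit false

namespace Pool.Agent.H964R6

open Finset Pool.Agent.H820R5.BW Pool.Agent.H964R5

section dec

variable {K : Type*} [CommRing K] {a b : ℕ}

open Classical in
/-- The rows with a nonzero entry at a place in `S` and a nonzero entry at a place outside `S`. -/
noncomputable def crossRows (A : Matrix (Fin a) (Fin b) K) (S : Finset (Fin a × Fin b)) :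
    Finset (Fin a) :=
  univ.filter fun i => (∃ j, A i j ≠ 0 ∧ (i, j) ∈ S) ∧ ∃ j, A i j ≠ 0 ∧ (i, j) ∉ S

open Classical in
/-- The columns with a nonzero entry at a place in `S` and a nonzero entry at a place outside
`S`. -/
noncomputable def crossCols (A : Matrix (Fin a) (Fin b) K) (S : Finset (Fin a × Fin b)) :
    Finset (Fin b) :=
  univ.filter fun j => (∃ i, A i j ≠ 0 ∧ (i, j) ∈ S) ∧ ∃ i, A i j ≠ 0 ∧ (i, j) ∉ S

/-- `Dec A w S`: the set `S` of places can be obtained from the empty set and single places by
successive disjoint unions (in any tree-like way) so that for each of the unions at most `w` rows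
and at most `w` columns of `A` cross. -/
inductive Dec (A : Matrix (Fin a) (Fin b) K) (w : ℕ) : Finset (Fin a × Fin b) → Prop
  | empty : Dec A w ∅
  | leaf (x : Fin a × Fin b) : Dec A w {x}
  | union {S T : Finset (Fin a × Fin b)} (hS : Dec A w S) (hT : Dec A w T) (h : Disjoint S T)
      (hr : (crossRows A (S ∪ T)).card ≤ w) (hc : (crossCols A (S ∪ T)).card ≤ w) :
      Dec A w (S ∪ T)

/-- Branch decompositions restrict to submatrices. -/
theorem Dec.sub {A : Matrix (Fin a) (Fin b) K} {w : ℕ} {S : Finset (Fin a × Fin b)}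
    (h : Dec A w S) {p q : ℕ} {e : Fin p → Fin a} {f : Fin q → Fin b}
    (he : Function.Injective e) (hf : Function.Injective f) :
    Dec (A.submatrix e f) w (univ.filter fun x => (e x.1, f x.2) ∈ S) := by
  classical
  induction h with
  | empty =>
    have : (univ.filter fun x : Fin p × Fin q =>
        (e x.1, f x.2) ∈ (∅ : Finset (Fin a × Fin b))) = ∅ := by simp
    rw [this]
    exact Dec.empty
  | leaf x =>
    by_cases hx : ∃ y : Fin p × Fin q, (e y.1, f y.2) = x
    · obtain ⟨y, rfl⟩ := hx
      have : (univ.filter fun x : Fin p × Fin q =>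
          (e x.1, f x.2) ∈ ({(e y.1, f y.2)} : Finset (Fin a × Fin b))) = {y} := by
        ext z
        simp only [mem_filter, mem_univ, true_and, mem_singleton, Prod.mk.injEq]
        constructor
        · rintro ⟨h1, h2⟩
          exact Prod.ext (he h1) (hf h2)
        · rintro rfl
          exact ⟨rfl, rfl⟩
      rw [this]
      exact Dec.leaf y
    · have : (univ.filter fun x' : Fin p × Fin q =>
          (e x'.1, f x'.2) ∈ ({x} : Finset (Fin a × Fin b))) = ∅ := by
        rw [Finset.filter_eq_empty_iff]
        intro y _ hy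
        exact hx ⟨y, mem_singleton.1 hy⟩
      rw [this]
      exact Dec.empty
  | @union S T hS hT hd hr hc ihS ihT =>
    have e1 : (univ.filter fun x : Fin p × Fin q => (e x.1, f x.2) ∈ S ∪ T) =
        (univ.filter fun x : Fin p × Fin q => (e x.1, f x.2) ∈ S) ∪
        (univ.filter fun x : Fin p × Fin q => (e x.1, f x.2) ∈ T) := by
      ext x
      simp [mem_union]
    rw [e1]
    refine Dec.union ihS ihT ?_ ?_ ?_
    · rw [disjoint_filter]
      intro x _ h1 h2
      exact Finset.disjoint_left.1 hd h1 h2
    · rw [← e1]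
      refine le_trans ?_ hr
      rw [← card_image_of_injective _ he]
      refine card_le_card ?_
      intro i hi
      obtain ⟨i', hi', rfl⟩ := mem_image.1 hi
      simp only [crossRows, mem_filter, mem_univ, true_and, Matrix.submatrix_apply] at hi' ⊢
      obtain ⟨⟨j, h1, h2⟩, j', h3, h4⟩ := hi'
      exact ⟨⟨f j, h1, h2⟩, f j', h3, h4⟩
    · rw [← e1]
      refine le_trans ?_ hc
      rw [← card_image_of_injective _ hf]
      refine card_le_card ?_
      intro i hi
      obtain ⟨i', hi', rfl⟩ := mem_image.1 hi
      simp only [crossCols, mem_filter, mem_univ, true_and, Matrix.submatrix_apply] at hi' ⊢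
      obtain ⟨⟨j, h1, h2⟩, j', h3, h4⟩ := hi'
      exact ⟨⟨e j, h1, h2⟩, e j', h3, h4⟩

open Classical in
/-- The rows with a nonzero entry, all of whose nonzero entries are at places in `S`. -/
noncomputable def inRows (A : Matrix (Fin a) (Fin b) K) (S : Finset (Fin a × Fin b)) :
    Finset (Fin a) :=
  univ.filter fun i => (∃ j, A i j ≠ 0) ∧ ∀ j, A i j ≠ 0 → (i, j) ∈ S

open Classical in
/-- The columns with a nonzero entry, all of whose nonzero entries are at places in `S`. -/
noncomputable def inCols (A : Matrix (Fin a) (Fin b) K) (S : Finset (Fin a × Fin b)) :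
    Finset (Fin b) :=
  univ.filter fun j => (∃ i, A i j ≠ 0) ∧ ∀ i, A i j ≠ 0 → (i, j) ∈ S

/-- The minors which matter for `S`. -/
def Rel (A : Matrix (Fin a) (Fin b) K) (S : Finset (Fin a × Fin b)) (R : Finset (Fin a))
    (C : Finset (Fin b)) : Prop :=
  (inRows A S ⊆ R ∧ R ⊆ inRows A S ∪ crossRows A S) ∧
    (inCols A S ⊆ C ∧ C ⊆ inCols A S ∪ crossCols A S)

/-- The list of the minors which matter. -/
noncomputable def relSet (A : Matrix (Fin a) (Fin b) K) (S : Finset (Fin a × Fin b)) :
    Finset (Finset (Fin a) × Finset (Fin b)) :=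
  ((crossRows A S).powerset ×ˢ (crossCols A S).powerset).image
    fun x => (inRows A S ∪ x.1, inCols A S ∪ x.2)

theorem mem_relSet {A : Matrix (Fin a) (Fin b) K} {S : Finset (Fin a × Fin b)}
    {R : Finset (Fin a)} {C : Finset (Fin b)} (h : Rel A S R C) : (R, C) ∈ relSet A S := by
  classical
  obtain ⟨⟨h1, h2⟩, h3, h4⟩ := h
  unfold relSet
  rw [mem_image]
  refine ⟨(R ∩ crossRows A S, C ∩ crossCols A S), mem_product.2 ⟨mem_powerset.2 inter_subset_right,
    mem_powerset.2 inter_subset_right⟩, Prod.ext ?_ ?_⟩
  · ext x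
    simp only [mem_union, mem_inter]
    constructor
    · rintro (h | h)
      · exact h1 h
      · exact h.1
    · intro hx
      rcases mem_union.1 (h2 hx) with h | h
      · exact Or.inl h
      · exact Or.inr ⟨hx, h⟩
  · ext x
    simp only [mem_union, mem_inter]
    constructor
    · rintro (h | h)
      · exact h3 h
      · exact h.1
    · intro hx
      rcases mem_union.1 (h4 hx) with h | h
      · exact Or.inl h
      · exact Or.inr ⟨hx, h⟩

theorem relSet_card {A : Matrix (Fin a) (Fin b) K} {S : Finset (Fin a × Fin b)} {w : ℕ}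
    (hr : (crossRows A S).card ≤ w) (hc : (crossCols A S).card ≤ w) :
    (relSet A S).card ≤ 4 ^ w := by
  classical
  unfold relSet
  refine card_image_le.trans ?_
  rw [card_product, card_powerset, card_powerset]
  calc 2 ^ (crossRows A S).card * 2 ^ (crossCols A S).card ≤ 2 ^ w * 2 ^ w := by
        gcongr <;> norm_num
    _ = 4 ^ w := by
        rw [← mul_pow]
        norm_num

/-- If a product in the generalized Laplace expansion does not vanish, then its factors matter. -/
theorem rel_of_ne {A : Matrix (Fin a) (Fin b) K} {S T : Finset (Fin a × Fin b)}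
    (h : Disjoint S T) {R R₁ R₂ : Finset (Fin a)} {C C₁ C₂ : Finset (Fin b)}
    (hR : R₁ ∪ R₂ = R) (hC : C₁ ∪ C₂ = C) (hrel : Rel A (S ∪ T) R C)
    (h1 : mn (part A S) R₁ C₁ ≠ 0) (h2 : mn (part A T) R₂ C₂ ≠ 0) : Rel A S R₁ C₁ := by
  classical
  obtain ⟨⟨h3, -⟩, h5, -⟩ := hrel
  refine ⟨⟨?_, ?_⟩, ?_, ?_⟩
  · intro i hi
    simp only [inRows, mem_filter, mem_univ, true_and] at hi
    have hiR : i ∈ R := h3 (by
      simp only [inRows, mem_filter, mem_univ, true_and]
      exact ⟨hi.1, fun j hj => mem_union_left _ (hi.2 j hj)⟩)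
    rw [← hR] at hiR
    rcases mem_union.1 hiR with h' | h'
    · exact h'
    · refine absurd (mn_row_zero _ h' fun j => ?_) h2
      simp only [part]
      split_ifs with hT
      · by_contra hne
        exact Finset.disjoint_left.1 h (hi.2 j hne) hT
      · rfl
  · intro i hi
    have : ∃ j, A i j ≠ 0 ∧ (i, j) ∈ S := by
      by_contra hcon
      push Not at hcon
      refine h1 (mn_row_zero _ hi fun j => ?_)
      simp only [part]
      split_ifs with hS
      · by_contra hne
        exact hcon j hne hS
      · rfl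
    rw [mem_union]
    by_cases h' : ∃ j, A i j ≠ 0 ∧ (i, j) ∉ S
    · right
      simp only [crossRows, mem_filter, mem_univ, true_and]
      exact ⟨this, h'⟩
    · left
      push Not at h'
      simp only [inRows, mem_filter, mem_univ, true_and]
      exact ⟨⟨this.choose, this.choose_spec.1⟩, h'⟩
  · intro i hi
    simp only [inCols, mem_filter, mem_univ, true_and] at hi
    have hiC : i ∈ C := h5 (by
      simp only [inCols, mem_filter, mem_univ, true_and]
      exact ⟨hi.1, fun j hj => mem_union_left _ (hi.2 j hj)⟩)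
    rw [← hC] at hiC
    rcases mem_union.1 hiC with h' | h'
    · exact h'
    · refine absurd (mn_col_zero _ h' fun j => ?_) h2
      simp only [part]
      split_ifs with hT
      · by_contra hne
        exact Finset.disjoint_left.1 h (hi.2 j hne) hT
      · rfl
  · intro i hi
    have : ∃ j, A j i ≠ 0 ∧ (j, i) ∈ S := by
      by_contra hcon
      push Not at hcon
      refine h1 (mn_col_zero _ hi fun j => ?_)
      simp only [part]
      split_ifs with hS
      · by_contra hne
        exact hcon j hne hS
      · rfl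
    rw [mem_union]
    by_cases h' : ∃ j, A j i ≠ 0 ∧ (j, i) ∉ S
    · right
      simp only [crossCols, mem_filter, mem_univ, true_and]
      exact ⟨this, h'⟩
    · left
      push Not at h'
      simp only [inCols, mem_filter, mem_univ, true_and]
      exact ⟨⟨this.choose, this.choose_spec.1⟩, h'⟩

/-- The same with subgroups. -/
theorem mn_union_mem' {A : Matrix (Fin a) (Fin b) K}
    {S T : Finset (Fin a × Fin b)} (h : Disjoint S T) {R : Finset (Fin a)} {C : Finset (Fin b)}
    (hrel : Rel A (S ∪ T) R C) (W : AddSubgroup K)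
    (hW : ∀ R₁ C₁ R₂ C₂, Rel A S R₁ C₁ → Rel A T R₂ C₂ →
      mn (part A S) R₁ C₁ * mn (part A T) R₂ C₂ ∈ W) : mn (part A (S ∪ T)) R C ∈ W := by
  classical
  rw [mn_union A S T h]
  refine AddSubgroup.sum_mem _ fun x hx => ?_
  rw [mem_product, mem_powerset, mem_powerset] at hx
  rw [← zsmul_eq_mul]
  refine zsmul_mem ?_ _
  by_cases h1 : mn (part A S) x.1 x.2 = 0
  · rw [h1, zero_mul]
    exact zero_mem _
  by_cases h2 : mn (part A T) (R \ x.1) (C \ x.2) = 0
  · rw [h2, mul_zero]
    exact zero_mem _
  refine hW _ _ _ _ ?_ ?_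
  · exact rel_of_ne h (union_sdiff_of_subset hx.1) (union_sdiff_of_subset hx.2) hrel h1 h2
  · refine rel_of_ne h.symm ?_ ?_ (by rw [union_comm]; exact hrel) h2 h1
    · rw [sdiff_union_of_subset hx.1]
    · rw [sdiff_union_of_subset hx.2]

/-- In the union, a minor which matters is a combination of products of minors which matter. -/
theorem mn_union_mem {F : Type*} [Field F] [Algebra F K] {A : Matrix (Fin a) (Fin b) K}
    {S T : Finset (Fin a × Fin b)} (h : Disjoint S T) {R : Finset (Fin a)} {C : Finset (Fin b)}
    (hrel : Rel A (S ∪ T) R C) (W : Submodule F K)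
    (hW : ∀ R₁ C₁ R₂ C₂, Rel A S R₁ C₁ → Rel A T R₂ C₂ →
      mn (part A S) R₁ C₁ * mn (part A T) R₂ C₂ ∈ W) : mn (part A (S ∪ T)) R C ∈ W := by
  classical
  rw [mn_union A S T h]
  refine Submodule.sum_mem _ fun x hx => ?_
  rw [mem_product, mem_powerset, mem_powerset] at hx
  rw [← zsmul_eq_mul]
  refine zsmul_mem ?_ _
  by_cases h1 : mn (part A S) x.1 x.2 = 0
  · rw [h1, zero_mul]
    exact zero_mem _
  by_cases h2 : mn (part A T) (R \ x.1) (C \ x.2) = 0
  · rw [h2, mul_zero]
    exact zero_mem _
  refine hW _ _ _ _ ?_ ?_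
  · exact rel_of_ne h (union_sdiff_of_subset hx.1) (union_sdiff_of_subset hx.2) hrel h1 h2
  · refine rel_of_ne h.symm ?_ ?_ (by rw [union_comm]; exact hrel) h2 h1
    · rw [sdiff_union_of_subset hx.1]
    · rw [sdiff_union_of_subset hx.2]

end dec

end Pool.Agent.H964R6
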