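import Mathlib
import Pool.Agent.H532R2.DT.Hyb
import Pool.Agent.H530R2.SubPM
import Pool.Agent.H964R6.Pl
import Pool.Agent.H964R6.Tree

/-!
Minors of polynomial matrices with a branch decomposition of width `w` have few parameters with
respect to small blocks of variables.
-/

set_option autoImplicit false

namespace Pool.Agent.H964R6

open MvPolynomial Pool.Agent.H820R5.BW Pool.Agent.H532R2.DT Pool.Agent.H530R2

section cross

variable {K : Type*} [CommRing K] {a b : ℕ} {A : Matrix (Fin a) (Fin b) K}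

theorem crossRows_sdiff (Q Q' : Finset (Fin a × Fin b)) :
    crossRows A (Q \ Q') ⊆ crossRows A Q ∪ crossRows A Q' := by
  classical
  intro i hi
  simp only [crossRows, Finset.mem_filter, Finset.mem_univ, true_and, Finset.mem_union,
    Finset.mem_sdiff] at hi ⊢
  obtain ⟨⟨j, h1, h2, h3⟩, j', h4, h5⟩ := hi
  by_cases h6 : (i, j') ∈ Q
  · have h7 : (i, j') ∈ Q' := by
      by_contra hcon
      exact h5 ⟨h6, hcon⟩
    exact Or.inr ⟨⟨j', h4, h7⟩, j, h1, h3⟩
  · exact Or.inl ⟨⟨j, h1, h2⟩, j', h4, h6⟩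

theorem crossCols_sdiff (Q Q' : Finset (Fin a × Fin b)) :
    crossCols A (Q \ Q') ⊆ crossCols A Q ∪ crossCols A Q' := by
  classical
  intro i hi
  simp only [crossCols, Finset.mem_filter, Finset.mem_univ, true_and, Finset.mem_union,
    Finset.mem_sdiff] at hi ⊢
  obtain ⟨⟨j, h1, h2, h3⟩, j', h4, h5⟩ := hi
  by_cases h6 : (j', i) ∈ Q
  · have h7 : (j', i) ∈ Q' := by
      by_contra hcon
      exact h5 ⟨h6, hcon⟩
    exact Or.inr ⟨⟨j', h4, h7⟩, j, h1, h3⟩
  · exact Or.inl ⟨⟨j, h1, h2⟩, j', h4, h6⟩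

theorem Dec.cross {w : ℕ} (hw : 1 ≤ w) {Q : Finset (Fin a × Fin b)} (h : Dec A w Q) :
    (crossRows A Q).card ≤ w ∧ (crossCols A Q).card ≤ w := by
  classical
  cases h with
  | empty =>
    have h1 : crossRows A (∅ : Finset (Fin a × Fin b)) = ∅ := by
      simp [crossRows]
    have h2 : crossCols A (∅ : Finset (Fin a × Fin b)) = ∅ := by
      simp [crossCols]
    rw [h1, h2]
    simp
  | leaf x =>
    have h1 : crossRows A {x} ⊆ {x.1} := by
      intro i hi
      simp only [crossRows, Finset.mem_filter, Finset.mem_univ, true_and,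
        Finset.mem_singleton] at hi ⊢
      obtain ⟨⟨j, _, h2⟩, -⟩ := hi
      rw [← h2]
    have h2 : crossCols A {x} ⊆ {x.2} := by
      intro i hi
      simp only [crossCols, Finset.mem_filter, Finset.mem_univ, true_and,
        Finset.mem_singleton] at hi ⊢
      obtain ⟨⟨j, _, h2⟩, -⟩ := hi
      rw [← h2]
    exact ⟨(Finset.card_le_card h1).trans (by simpa using hw),
      (Finset.card_le_card h2).trans (by simpa using hw)⟩
  | union hS hT hd hr hc => exact ⟨hr, hc⟩

theorem mn_map {L : Type*} [CommRing L] (φ : K →+* L) (B : Matrix (Fin a) (Fin b) K)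
    (R : Finset (Fin a)) (C : Finset (Fin b)) : mn (B.map φ) R C = φ (mn B R C) := by
  unfold mn
  split_ifs with h
  · rw [RingHom.map_det]
    rfl
  · rw [map_zero]

end cross

section par

variable {F : Type*} [Field F] {S : Type*} [CommRing S] [Algebra F S] {n a b : ℕ}

/-- The number of occurrences of a variable in a polynomial: `0` or `1` if the polynomial has at
most `c` variables; otherwise the number of its monomials in which the variable occurs. -/
noncomputable def occ (c : ℕ) (p : MvPolynomial (Fin n) F) (i : Fin n) : ℕ :=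
  if p.vars.card ≤ c then (if i ∈ p.vars then 1 else 0) else inc p i

/-- The number of occurrences of the variables in `V` in the entries at the places in `Q`. -/
noncomputable def marks (c : ℕ) (A : Matrix (Fin a) (Fin b) (MvPolynomial (Fin n) F))
    (V : Finset (Fin n)) (Q : Finset (Fin a × Fin b)) : ℕ :=
  ∑ x ∈ Q, ∑ i ∈ V, occ c (A x.1 x.2) i

theorem rho_supp (V : Finset (Fin n)) (s : Fin n → S)
    (ρ : MvPolynomial (Fin n) F →ₐ[F] MvPolynomial (Fin n) S)
    (h2 : ∀ j ∉ V, ρ (X j) = C (s j)) {p : MvPolynomial (Fin n) F}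
    (hp : p ∈ supported F ((V : Set (Fin n))ᶜ)) : ρ p = C (aeval s p) :=
  Pool.Agent.H964R5.rho_const s ρ (fun i hi => h2 i (by simpa using hi)) hp

/-- Parameters of an entry. -/
theorem entry_params (c : ℕ) (V : Finset (Fin n)) (s : Fin n → S)
    (ρ : MvPolynomial (Fin n) F →ₐ[F] MvPolynomial (Fin n) S) (h1 : ∀ j ∈ V, ρ (X j) = X j)
    (h2 : ∀ j ∉ V, ρ (X j) = C (s j)) (p : MvPolynomial (Fin n) F) :
    ∃ T : Finset S, T.card ≤ ∑ i ∈ V, occ c p i + (c + 1) ∧
      ∀ D : Derivation F S S, (∀ x ∈ T, D x = 0) → ρ p ∈ Kc n D := by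
  classical
  by_cases hc : p.vars.card ≤ c
  · refine ⟨(p.vars \ V).image s, ?_, fun D hD => ?_⟩
    · have h3 := Finset.card_image_le (s := p.vars \ V) (f := s)
      have h4 := Finset.card_le_card (Finset.sdiff_subset (s := p.vars) (t := V))
      omega
    · refine Pool.Agent.H964R5.rho_mem_Kc D ρ (A := (p.vars : Set (Fin n))) ?_
        (mem_supported.2 subset_rfl)
      intro i hi
      by_cases hiV : i ∈ V
      · rw [h1 i hiV]
        exact X_mem_Kc D i
      · rw [h2 i hiV]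
        exact C_mem_Kc (hD _ (Finset.mem_image_of_mem _ (Finset.mem_sdiff.2
          ⟨Finset.mem_coe.1 hi, hiV⟩)))
  obtain ⟨Φ, hΦ, hs, hp⟩ := sparse_params V p
  have hocc : ∑ i ∈ V, inc p i = ∑ i ∈ V, occ c p i :=
    Finset.sum_congr rfl fun i _ => by rw [occ, if_neg hc]
  refine ⟨Φ.image (aeval s), ?_, fun D hD => ?_⟩
  · have h3 := Finset.card_image_le (s := Φ) (f := aeval s)
    have h4 := touch_card_le V p
    omega
  clear hΦ hc hocc
  induction hp using Algebra.adjoin_induction with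
  | mem y hy =>
    rcases hy with hy | ⟨i, hi, rfl⟩
    · rw [rho_supp V s ρ h2 (hs y hy)]
      exact C_mem_Kc (hD _ (Finset.mem_image_of_mem _ hy))
    · rw [h1 i hi]
      exact X_mem_Kc D i
  | algebraMap r =>
    rw [AlgHom.commutes]
    exact Pool.Agent.H964R5.algebraMap_mem_Kc D r
  | add y z _ _ hy hz =>
    rw [map_add]
    exact Subring.add_mem _ hy hz
  | mul y z _ _ hy hz =>
    rw [map_mul]
    exact Subring.mul_mem _ hy hz

theorem occ_ne {c : ℕ} {p : MvPolynomial (Fin n) F} {i : Fin n} (hi : i ∈ p.vars) :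
    occ c p i ≠ 0 := by
  classical
  unfold occ
  split_ifs
  · exact one_ne_zero
  · obtain ⟨s, hs, his⟩ := mem_vars i |>.1 hi
    unfold inc
    exact (Finset.card_pos.2 ⟨s, Finset.mem_filter.2 ⟨hs, his⟩⟩).ne'

theorem entry_const {c : ℕ} (V : Finset (Fin n)) (p : MvPolynomial (Fin n) F)
    (h : ∑ i ∈ V, occ c p i = 0) : p ∈ supported F ((V : Set (Fin n))ᶜ) := by
  classical
  rw [mem_supported]
  intro i hi
  rw [Set.mem_compl_iff]
  intro hV
  exact occ_ne (Finset.mem_coe.1 hi) ((Finset.sum_eq_zero_iff.1 h) i (Finset.mem_coe.1 hV))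

variable (F) in
/-- The minors which matter for `Q` are killed by all derivations which kill `T`. -/
def Kill (A : Matrix (Fin a) (Fin b) (MvPolynomial (Fin n) F))
    (ρ : MvPolynomial (Fin n) F →ₐ[F] MvPolynomial (Fin n) S) (Q : Finset (Fin a × Fin b))
    (T : Finset S) : Prop :=
  ∀ D : Derivation F S S, (∀ x ∈ T, D x = 0) → ∀ R C, Rel A Q R C →
    ρ (mn (part A Q) R C) ∈ Kc n D

theorem kill_unmarked [IsDomain S] {c : ℕ} {A : Matrix (Fin a) (Fin b) (MvPolynomial (Fin n) F)}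
    (V : Finset (Fin n)) (s : Fin n → S)
    (ρ : MvPolynomial (Fin n) F →ₐ[F] MvPolynomial (Fin n) S)
    (h2 : ∀ j ∉ V, ρ (X j) = C (s j)) {Q : Finset (Fin a × Fin b)} {w : ℕ}
    (hQ : marks c A V Q = 0) (hr : (crossRows A Q).card ≤ w) (hc : (crossCols A Q).card ≤ w) :
    ∃ T : Finset S, T.card ≤ (2 * w) ^ 2 + 1 ∧ Kill F A ρ Q T := by
  classical
  obtain ⟨N, hN⟩ : ∃ N : Matrix (Fin a) (Fin b) S,
      (part A Q).map (ρ : MvPolynomial (Fin n) F →+* MvPolynomial (Fin n) S) =
        N.map (C : S →+* MvPolynomial (Fin n) S) := by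
    refine ⟨fun i j => if (i, j) ∈ Q then aeval s (A i j) else 0, ?_⟩
    ext1 i j
    rw [Matrix.map_apply, Matrix.map_apply]
    simp only [part]
    split_ifs with h
    · refine rho_supp V s ρ h2 (entry_const (c := c) V _ ?_)
      exact (Finset.sum_eq_zero_iff.1 hQ) (i, j) h
    · rw [map_zero, map_zero]
  obtain ⟨T, hT, hD⟩ := minors_params F N (inRows A Q) (crossRows A Q) (inCols A Q)
    (crossCols A Q) w hr hc
  refine ⟨T, hT, fun D hDT R C' hrel => ?_⟩
  have h3 : ρ (mn (part A Q) R C') = C (mn N R C') := by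
    have h4 := mn_map (ρ : MvPolynomial (Fin n) F →+* MvPolynomial (Fin n) S) (part A Q) R C'
    rw [hN, mn_map] at h4
    exact h4.symm
  rw [h3]
  exact C_mem_Kc (hD D hDT R C' hrel.1.1 hrel.1.2 hrel.2.1 hrel.2.2)

theorem Kill.union {A : Matrix (Fin a) (Fin b) (MvPolynomial (Fin n) F)}
    {ρ : MvPolynomial (Fin n) F →ₐ[F] MvPolynomial (Fin n) S} {Q Q' : Finset (Fin a × Fin b)}
    {T T' : Finset S} (h : Kill F A ρ Q T) (h' : Kill F A ρ Q' T') (hd : Disjoint Q Q') :
    ∃ T'' : Finset S, T''.card ≤ T.card + T'.card ∧ Kill F A ρ (Q ∪ Q') T'' := by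
  classical
  refine ⟨T ∪ T', Finset.card_union_le _ _, fun D hD R C hrel => ?_⟩
  refine mn_union_mem' hd hrel
    ((Kc n D).toAddSubgroup.comap (ρ : MvPolynomial (Fin n) F →+ MvPolynomial (Fin n) S)) ?_
  intro R₁ C₁ R₂ C₂ h1 h2
  change ρ (mn (part A Q) R₁ C₁ * mn (part A Q') R₂ C₂) ∈ Kc n D
  rw [map_mul]
  exact Subring.mul_mem _
    (h D (fun x hx => hD x (Finset.mem_union_left _ hx)) _ _ h1)
    (h' D (fun x hx => hD x (Finset.mem_union_right _ hx)) _ _ h2)

/-- The number of parameters of an unmarked part between two cuts. -/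
def cw (w : ℕ) : ℕ := (2 * (2 * w)) ^ 2 + 1

theorem kill_full [IsDomain S] {c : ℕ} {A : Matrix (Fin a) (Fin b) (MvPolynomial (Fin n) F)}
    (V : Finset (Fin n)) (s : Fin n → S)
    (ρ : MvPolynomial (Fin n) F →ₐ[F] MvPolynomial (Fin n) S)
    (h2 : ∀ j ∉ V, ρ (X j) = C (s j)) {Q Q' : Finset (Fin a × Fin b)} {w : ℕ} (hsub : Q' ⊆ Q)
    (hQ : marks c A V (Q \ Q') = 0) (hr : (crossRows A Q).card ≤ w)
    (hc : (crossCols A Q).card ≤ w) (hr' : (crossRows A Q').card ≤ w)
    (hc' : (crossCols A Q').card ≤ w) {T : Finset S} (hT : Kill F A ρ Q' T) :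
    ∃ T' : Finset S, T'.card ≤ T.card + cw w ∧ Kill F A ρ Q T' := by
  classical
  have h3 : (crossRows A (Q \ Q')).card ≤ 2 * w := by
    have := (Finset.card_le_card (crossRows_sdiff (A := A) Q Q')).trans
      (Finset.card_union_le _ _)
    omega
  have h4 : (crossCols A (Q \ Q')).card ≤ 2 * w := by
    have := (Finset.card_le_card (crossCols_sdiff (A := A) Q Q')).trans
      (Finset.card_union_le _ _)
    omega
  obtain ⟨T₁, h5, h6⟩ := kill_unmarked V s ρ h2 hQ h3 h4
  obtain ⟨T₂, h7, h8⟩ := hT.union h6 Finset.disjoint_sdiff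
  rw [Finset.union_sdiff_of_subset hsub] at h8
  exact ⟨T₂, h7.trans (Nat.add_le_add_left h5 _), h8⟩

theorem marks_union (c : ℕ) (A : Matrix (Fin a) (Fin b) (MvPolynomial (Fin n) F)) (V : Finset (Fin n))
    {Q Q' : Finset (Fin a × Fin b)} (h : Disjoint Q Q') :
    marks c A V (Q ∪ Q') = marks c A V Q + marks c A V Q' := Finset.sum_union h

theorem marks_mono (c : ℕ) (A : Matrix (Fin a) (Fin b) (MvPolynomial (Fin n) F)) (V : Finset (Fin n))
    {Q Q' : Finset (Fin a × Fin b)} (h : Q ⊆ Q') : marks c A V Q ≤ marks c A V Q' :=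
  Finset.sum_le_sum_of_subset h

/-- **Cores.** -/
theorem Dec.core [IsDomain S] (c : ℕ) {A : Matrix (Fin a) (Fin b) (MvPolynomial (Fin n) F)}
    (V : Finset (Fin n)) (s : Fin n → S)
    (ρ : MvPolynomial (Fin n) F →ₐ[F] MvPolynomial (Fin n) S) (h1 : ∀ j ∈ V, ρ (X j) = X j)
    (h2 : ∀ j ∉ V, ρ (X j) = C (s j)) {w : ℕ} (hw : 1 ≤ w) {Q : Finset (Fin a × Fin b)}
    (h : Dec A w Q) : marks c A V Q = 0 ∨
    (1 ≤ marks c A V Q ∧ ∃ Q' ⊆ Q, marks c A V (Q \ Q') = 0 ∧ (crossRows A Q').card ≤ w ∧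
      (crossCols A Q').card ≤ w ∧ ∃ T : Finset S,
        T.card + 2 * cw w ≤ (2 * cw w + (c + 2)) * marks c A V Q ∧ Kill F A ρ Q' T) := by
  classical
  induction h with
  | empty =>
    left
    simp [marks]
  | leaf x =>
    rcases Nat.eq_zero_or_pos (marks c A V {x}) with h0 | h0
    · exact Or.inl h0
    right
    obtain ⟨i, j⟩ := x
    have hm : marks c A V {(i, j)} = ∑ k ∈ V, occ c (A i j) k := by simp [marks]
    obtain ⟨T, hT, hD⟩ := entry_params c V s ρ h1 h2 (A i j)
    obtain ⟨hc1, hc2⟩ := (Dec.leaf (A := A) (w := w) (i, j)).cross hw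
    refine ⟨h0, {(i, j)}, subset_rfl, by simp [marks], hc1, hc2, T, ?_, ?_⟩
    · rw [← hm] at hT
      have h3 : (2 * cw w + (c + 2)) * marks c A V {(i, j)} =
          (2 * cw w + (c + 1)) * marks c A V {(i, j)} + marks c A V {(i, j)} := by ring
      have h4 : (2 * cw w + (c + 1)) * 1 ≤ (2 * cw w + (c + 1)) * marks c A V {(i, j)} :=
        Nat.mul_le_mul_left _ h0
      omega
    · intro D hDT R C' _
      have hp0 : part A (∅ : Finset (Fin a × Fin b)) = 0 := by
        ext i j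
        simp [part]
      have h3 : part A {(i, j)} = upd (0 : Matrix (Fin a) (Fin b) (MvPolynomial (Fin n) F)) i j
          (A i j) := by
        rw [← hp0, ← part_insert]
        rfl
      have hz : ∀ R C, ρ (mn (0 : Matrix (Fin a) (Fin b) (MvPolynomial (Fin n) F)) R C) ∈
          Kc n D := by
        intro R C
        rcases mn_zero (K := MvPolynomial (Fin n) F) R C with h | h
        · rw [h, map_zero]
          exact Subring.zero_mem _
        · rw [h, map_one]
          exact Subring.one_mem _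
      rw [h3, mn_upd' _ i j rfl, map_add]
      refine Subring.add_mem _ (hz _ _) ?_
      split_ifs
      · rw [map_mul, map_mul, map_intCast]
        exact Subring.mul_mem _ (Subring.mul_mem _ (intCast_mem (Kc n D) _) (hD D hDT)) (hz _ _)
      · rw [map_zero]
        exact Subring.zero_mem _
  | @union Q₁ Q₂ hQ₁ hQ₂ hd hr hc ih₁ ih₂ =>
    have hcr₁ := hQ₁.cross hw
    have hcr₂ := hQ₂.cross hw
    rw [marks_union c A V hd]
    rcases ih₁ with h01 | ⟨hm1, Q₁', hs1, hu1, hr1, hc1, T₁, hT1, hK1⟩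
    · rcases ih₂ with h02 | ⟨hm2, Q₂', hs2, hu2, hr2, hc2, T₂, hT2, hK2⟩
      · exact Or.inl (by rw [h01, h02])
      · right
        refine ⟨by omega, Q₂', hs2.trans Finset.subset_union_right, ?_, hr2, hc2, T₂, ?_, hK2⟩
        · refine Nat.le_zero.1 ((marks_mono c A V (Q' := Q₁ ∪ (Q₂ \ Q₂')) ?_).trans ?_)
          · intro x hx
            rw [Finset.mem_sdiff, Finset.mem_union] at hx
            rw [Finset.mem_union, Finset.mem_sdiff]
            tauto
          · rw [marks_union c A V (Finset.disjoint_of_subset_right Finset.sdiff_subset hd), h01, hu2]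
        · rw [h01, zero_add]
          exact hT2
    · rcases ih₂ with h02 | ⟨hm2, Q₂', hs2, hu2, hr2, hc2, T₂, hT2, hK2⟩
      · right
        refine ⟨by omega, Q₁', hs1.trans Finset.subset_union_left, ?_, hr1, hc1, T₁, ?_, hK1⟩
        · refine Nat.le_zero.1 ((marks_mono c A V (Q' := (Q₁ \ Q₁') ∪ Q₂) ?_).trans ?_)
          · intro x hx
            rw [Finset.mem_sdiff, Finset.mem_union] at hx
            rw [Finset.mem_union, Finset.mem_sdiff]
            tauto
          · rw [marks_union c A V (Finset.disjoint_of_subset_left Finset.sdiff_subset hd), h02, hu1]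
        · rw [h02, add_zero]
          exact hT1
      · right
        obtain ⟨T₁', h3, h4⟩ := kill_full V s ρ h2 hs1 hu1 hcr₁.1 hcr₁.2 hr1 hc1 hK1
        obtain ⟨T₂', h5, h6⟩ := kill_full V s ρ h2 hs2 hu2 hcr₂.1 hcr₂.2 hr2 hc2 hK2
        obtain ⟨T, h7, h8⟩ := h4.union h6 hd
        refine ⟨by omega, Q₁ ∪ Q₂, subset_rfl, by simp [marks], hr, hc, T, ?_, h8⟩
        rw [mul_add]
        omega

/-- The parameters of the minors which matter for a set with a branch decomposition. -/
theorem Dec.kill [IsDomain S] (c : ℕ) {A : Matrix (Fin a) (Fin b) (MvPolynomial (Fin n) F)}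
    (V : Finset (Fin n)) (s : Fin n → S)
    (ρ : MvPolynomial (Fin n) F →ₐ[F] MvPolynomial (Fin n) S) (h1 : ∀ j ∈ V, ρ (X j) = X j)
    (h2 : ∀ j ∉ V, ρ (X j) = C (s j)) {w : ℕ} (hw : 1 ≤ w) {Q : Finset (Fin a × Fin b)}
    (h : Dec A w Q) :
    ∃ T : Finset S, T.card ≤ (2 * cw w + (c + 2)) * marks c A V Q + cw w ∧ Kill F A ρ Q T := by
  classical
  obtain ⟨hr, hc⟩ := h.cross hw
  rcases h.core c V s ρ h1 h2 hw with h0 | ⟨hm, Q', hs, hu, hr', hc', T, hT, hK⟩
  · obtain ⟨T, hT, hK⟩ := kill_unmarked V s ρ h2 h0 (hr.trans (by omega : w ≤ 2 * w))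
      (hc.trans (by omega : w ≤ 2 * w))
    exact ⟨T, hT.trans (Nat.le_add_left _ _), hK⟩
  · obtain ⟨T', h3, h4⟩ := kill_full V s ρ h2 hs hu hr hc hr' hc' hK
    exact ⟨T', by omega, h4⟩

end par

end Pool.Agent.H964R6
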