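import Mathlib
import Pool.Agent.H964R5.Net
import Pool.Agent.H964R6.Par

/-!
Nonvanishing of determinants with a branch decomposition of small width.
-/

set_option autoImplicit false

namespace Pool.Agent.H964R6

open MvPolynomial Pool.Agent.H820R5.BW Pool.Agent.H532R2.DT Pool.Agent.H530R2

variable {F : Type*} [Field F] {n : ℕ}

/-- The number of pairs (monomial, variable) such that the monomial occurs in `m` with a nonzero
coefficient and the variable occurs in the monomial. -/
noncomputable def incidences (m : MvPolynomial (Fin n) F) : ℕ :=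
  ∑ s ∈ m.support, s.support.card

theorem sum_inc (m : MvPolynomial (Fin n) F) : ∑ i, inc m i = incidences m := by
  classical
  unfold inc incidences
  simp only [Finset.card_filter]
  rw [Finset.sum_comm]
  refine Finset.sum_congr rfl fun s _ => ?_
  rw [← Finset.card_filter]
  congr 1
  ext i
  simp

/-- The size of an entry: the number of its variables if there are at most `c` of them, otherwise
the number of its incidences. -/
noncomputable def esize (c : ℕ) (m : MvPolynomial (Fin n) F) : ℕ :=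
  if m.vars.card ≤ c then m.vars.card else incidences m

theorem sum_occ (c : ℕ) (m : MvPolynomial (Fin n) F) : ∑ i, occ c m i = esize c m := by
  classical
  unfold occ esize
  split_ifs with h
  · simp
  · exact sum_inc m

/-- The total size of the entries. -/
noncomputable def tsize (c : ℕ) {a b : ℕ} (M : Matrix (Fin a) (Fin b) (MvPolynomial (Fin n) F)) :
    ℕ := ∑ i, ∑ j, esize c (M i j)

theorem Dec.hasPar {S : Type*} [CommRing S] [IsDomain S] [Algebra F S] (c : ℕ) {N w : ℕ}
    (hw : 1 ≤ w) {A : Matrix (Fin N) (Fin N) (MvPolynomial (Fin n) F)}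
    {Q : Finset (Fin N × Fin N)} (h : Dec A w Q) (hQ : ∀ i j, A i j ≠ 0 → (i, j) ∈ Q)
    (hdet : A.det ≠ 0) (R : ℕ) :
    HasPar (fun i => ∑ x ∈ Q, occ c (A x.1 x.2) i) R ((2 * cw w + (c + 2)) * R + cw w) A.det S := by
  classical
  intro V hV s ρ h1 h2
  obtain ⟨T, hT, hK⟩ := h.kill c V s ρ h1 h2 hw
  have hm : marks c A V Q ≤ R := by
    unfold marks
    rw [Finset.sum_comm]
    exact hV
  refine ⟨T, hT.trans (Nat.add_le_add_right (Nat.mul_le_mul_left _ hm) _), fun D hD => ?_⟩
  have hpart : part A Q = A := by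
    ext1 i j
    simp only [part]
    split_ifs with hij
    · rfl
    · by_contra hne
      exact hij (hQ i j (fun h0 => hne (by rw [h0])))
  have hrow : inRows A Q = Finset.univ := by
    rw [Finset.eq_univ_iff_forall]
    intro i
    simp only [inRows, Finset.mem_filter, Finset.mem_univ, true_and]
    refine ⟨?_, fun j hj => hQ i j hj⟩
    by_contra hcon
    push Not at hcon
    exact hdet (Matrix.det_eq_zero_of_row_eq_zero i hcon)
  have hcol : inCols A Q = Finset.univ := by
    rw [Finset.eq_univ_iff_forall]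
    intro j
    simp only [inCols, Finset.mem_filter, Finset.mem_univ, true_and]
    refine ⟨?_, fun i hi => hQ i j hi⟩
    by_contra hcon
    push Not at hcon
    exact hdet (Matrix.det_eq_zero_of_column_eq_zero j hcon)
  have h3 := hK D hD Finset.univ Finset.univ ⟨⟨Finset.subset_univ _, by
    rw [hrow]
    exact Finset.subset_union_left⟩, Finset.subset_univ _, by
    rw [hcol]
    exact Finset.subset_union_left⟩
  rw [hpart, mn_univ] at h3
  exact h3

/-- The number of seeds. -/
def ell (w r : ℕ) : ℕ := (66 * w ^ 2 + 10) * r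

theorem Dec.seeds [CharZero F] {N w : ℕ} (hw : 1 ≤ w)
    {A : Matrix (Fin N) (Fin N) (MvPolynomial (Fin n) F)} {Q : Finset (Fin N × Fin N)}
    (h : Dec A w Q) (hQ : ∀ i j, A i j ≠ 0 → (i, j) ∈ Q) (hdet : A.det ≠ 0)
    {f : MvPolynomial (Fin n) F} (hf : f ∣ A.det) (s d r : ℕ)
    (hs : tsize (w ^ 2) A ≤ s) (hr : 1 ≤ r) (hd : f.totalDegree ≤ d) :
    ∃ (H : Finset (Fin n)) (bl : Fin n → Fin (s / r + 1)), H.card ≤ s / r ∧ Monotone bl ∧
      ∃ (v : Fin n → ℕ) (y : Fin (ell w r) → ℕ) (u : Fin (s / r + 1) → ℕ),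
        (∀ i, v i ≤ d) ∧ (∀ k, y k ≤ d) ∧ (∀ b, u b ≤ n * ell w r * d) ∧
        MvPolynomial.eval (fun i => if i ∈ H then (v i : F) else
          ∑ l : Fin (ell w r), (y l : F) * (u (bl i) : F) ^ (((i : ℕ) + 1) * (l : ℕ)))
          f ≠ 0 := by
  classical
  refine Pool.Agent.H964R5.exists_seeds_dvd (w := fun i => ∑ x ∈ Q, occ (w ^ 2) (A x.1 x.2) i)
    hf ?_ s r ((2 * cw w + (w ^ 2 + 2)) * (2 * (r - 1)) + cw w) (ell w r) d ?_ hr
    (h.hasPar (w ^ 2) hw hQ hdet _) ?_ hd hdet
  · refine det_mem (supported F {i | ∑ x ∈ Q, occ (w ^ 2) (A x.1 x.2) i ≠ 0}).toSubring _ ?_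
    intro i j
    change A i j ∈ supported F _
    by_cases h0 : A i j = 0
    · rw [h0]
      exact Subalgebra.zero_mem _
    · rw [mem_supported]
      intro k hk
      simp only [Set.mem_ofPred_eq]
      refine Nat.pos_iff_ne_zero.1 (lt_of_lt_of_le (Nat.pos_of_ne_zero
        (occ_ne (c := w ^ 2) (Finset.mem_coe.1 hk))) ?_)
      exact Finset.single_le_sum (f := fun x : Fin N × Fin N => occ (w ^ 2) (A x.1 x.2) k)
        (fun _ _ => Nat.zero_le _) (hQ i j h0)
  · refine le_trans ?_ hs
    rw [Finset.sum_comm]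
    simp only [sum_occ]
    unfold tsize
    rw [← Fintype.sum_prod_type' (fun i j => esize (w ^ 2) (A i j))]
    exact Finset.sum_le_sum_of_subset (Finset.subset_univ _)
  · obtain ⟨r', rfl⟩ : ∃ r', r = r' + 1 := ⟨r - 1, by omega⟩
    have e1 : r' + 1 - 1 = r' := by omega
    rw [e1, ell, cw]
    have e2 : (66 * w ^ 2 + 10) * (r' + 1) = (2 * ((2 * (2 * w)) ^ 2 + 1) + (w ^ 2 + 2)) *
        (2 * r') + ((2 * (2 * w)) ^ 2 + 1) + 2 * r' + (50 * w ^ 2 + 9) := by ring
    omega

end Pool.Agent.H964R6
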