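import Mathlib
import Pool.Agent.H964R6.Fin

/-!
Nested determinants with branch decompositions of small width have few parameters with respect to
small blocks of variables.
-/

set_option autoImplicit false

namespace Pool.Agent.H964R6

open MvPolynomial Pool.Agent.H820R5.BW Pool.Agent.H532R2.DT Pool.Agent.H530R2

variable {F : Type*} [Field F] {S : Type*} [CommRing S] [Algebra F S] {n a b : ℕ}

/-- Compressed form: constant, or `α g + β` where `g` has few parameters. -/
def CmpD (F : Type*) [Field F] {S : Type*} [CommRing S] [Algebra F S] {n : ℕ} (K c m : ℕ)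
    (f : MvPolynomial (Fin n) S) : Prop :=
  (∃ y : S, f = C y) ∨ (1 ≤ m ∧ ∃ (α β : S) (g : MvPolynomial (Fin n) S) (T : Finset S),
    T.card + c ≤ K * m ∧ (∀ D : Derivation F S S, (∀ x ∈ T, D x = 0) → g ∈ Kc n D) ∧
    f = C α * g + C β)

theorem mn_cst {A : Matrix (Fin a) (Fin b) (MvPolynomial (Fin n) F)}
    {ρ : MvPolynomial (Fin n) F →ₐ[F] MvPolynomial (Fin n) S} {Q : Finset (Fin a × Fin b)}
    (hQ : ∀ x ∈ Q, ∃ y : S, ρ (A x.1 x.2) = C y) :
    ∃ N : Matrix (Fin a) (Fin b) S, ∀ R C', ρ (mn (part A Q) R C') = C (mn N R C') := by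
  classical
  choose! y hy using hQ
  obtain ⟨N, hN⟩ : ∃ N : Matrix (Fin a) (Fin b) S,
      (part A Q).map (ρ : MvPolynomial (Fin n) F →+* MvPolynomial (Fin n) S) =
        N.map (C : S →+* MvPolynomial (Fin n) S) := by
    refine ⟨fun i j => if (i, j) ∈ Q then y (i, j) else 0, ?_⟩
    ext1 i j
    rw [Matrix.map_apply, Matrix.map_apply]
    simp only [part]
    split_ifs with h
    · exact hy (i, j) h
    · rw [map_zero, map_zero]
  refine ⟨N, fun R C' => ?_⟩
  have h4 := mn_map (ρ : MvPolynomial (Fin n) F →+* MvPolynomial (Fin n) S) (part A Q) R C'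
  rw [hN, mn_map] at h4
  exact h4.symm

theorem kill_cst [IsDomain S] {A : Matrix (Fin a) (Fin b) (MvPolynomial (Fin n) F)}
    {ρ : MvPolynomial (Fin n) F →ₐ[F] MvPolynomial (Fin n) S} {Q : Finset (Fin a × Fin b)} {w : ℕ}
    (hQ : ∀ x ∈ Q, ∃ y : S, ρ (A x.1 x.2) = C y) (hr : (crossRows A Q).card ≤ w)
    (hc : (crossCols A Q).card ≤ w) :
    ∃ T : Finset S, T.card ≤ (2 * w) ^ 2 + 1 ∧ Kill F A ρ Q T := by
  classical
  obtain ⟨N, hN⟩ := mn_cst hQ
  obtain ⟨T, hT, hD⟩ := minors_params F N (inRows A Q) (crossRows A Q) (inCols A Q)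
    (crossCols A Q) w hr hc
  refine ⟨T, hT, fun D hDT R C' hrel => ?_⟩
  rw [hN]
  exact C_mem_Kc (hD D hDT R C' hrel.1.1 hrel.1.2 hrel.2.1 hrel.2.2)

theorem kill_full' [IsDomain S] {A : Matrix (Fin a) (Fin b) (MvPolynomial (Fin n) F)}
    {ρ : MvPolynomial (Fin n) F →ₐ[F] MvPolynomial (Fin n) S}
    {Q Q' : Finset (Fin a × Fin b)} {w : ℕ} (hsub : Q' ⊆ Q)
    (hQ : ∀ x ∈ Q \ Q', ∃ y : S, ρ (A x.1 x.2) = C y) (hr : (crossRows A Q).card ≤ w)
    (hc : (crossCols A Q).card ≤ w) (hr' : (crossRows A Q').card ≤ w)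
    (hc' : (crossCols A Q').card ≤ w) {T : Finset S} (hT : Kill F A ρ Q' T) :
    ∃ T' : Finset S, T'.card ≤ T.card + cw w ∧ Kill F A ρ Q T' := by
  classical
  have h3 : (crossRows A (Q \ Q')).card ≤ 2 * w := by
    have := (Finset.card_le_card (crossRows_sdiff (A := A) Q Q')).trans
      (Finset.card_union_le _ _)
    omega
  have h4 : (crossCols A (Q \ Q')).card ≤ 2 * w := by
    have := (Finset.card_le_card (crossCols_sdiff (A := A) Q Q')).trans
      (Finset.card_union_le _ _)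
    omega
  obtain ⟨T₁, h5, h6⟩ := kill_cst hQ h3 h4
  obtain ⟨T₂, h7, h8⟩ := hT.union h6 Finset.disjoint_sdiff
  rw [Finset.union_sdiff_of_subset hsub] at h8
  exact ⟨T₂, h7.trans (Nat.add_le_add_left h5 _), h8⟩

/-- The minors of a single entry. -/
theorem mn_single (A : Matrix (Fin a) (Fin b) (MvPolynomial (Fin n) F)) (x : Fin a × Fin b)
    (R : Finset (Fin a)) (C' : Finset (Fin b)) :
    ∃ e e' : ℤ, mn (part A {x}) R C' = (e : MvPolynomial (Fin n) F) * A x.1 x.2 + e' := by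
  classical
  obtain ⟨i, j⟩ := x
  have hp0 : part A (∅ : Finset (Fin a × Fin b)) = 0 := by
    ext i j
    simp [part]
  have h3 : part A {(i, j)} = upd (0 : Matrix (Fin a) (Fin b) (MvPolynomial (Fin n) F)) i j
      (A i j) := by
    rw [← hp0, ← part_insert]
    rfl
  have hz : ∀ R C, ∃ e : ℤ, mn (0 : Matrix (Fin a) (Fin b) (MvPolynomial (Fin n) F)) R C =
      (e : MvPolynomial (Fin n) F) := by
    intro R C
    rcases mn_zero (K := MvPolynomial (Fin n) F) R C with h | h
    · exact ⟨0, by rw [h]; simp⟩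
    · exact ⟨1, by rw [h]; simp⟩
  obtain ⟨e', he'⟩ := hz R C'
  rw [h3, mn_upd' _ i j rfl, he']
  split_ifs
  · obtain ⟨e, he⟩ := hz (R.erase i) (C'.erase j)
    refine ⟨sg R i * sg C' j * e, e', ?_⟩
    rw [he]
    push_cast
    ring
  · exact ⟨0, e', by simp⟩

/-- Minors with one nonconstant entry. -/
theorem mn_affine {A : Matrix (Fin a) (Fin b) (MvPolynomial (Fin n) F)}
    {ρ : MvPolynomial (Fin n) F →ₐ[F] MvPolynomial (Fin n) S} {Q : Finset (Fin a × Fin b)}
    {x : Fin a × Fin b} (hx : x ∈ Q)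
    (hQ : ∀ z ∈ Q, z ≠ x → ∃ y : S, ρ (A z.1 z.2) = C y)
    (R : Finset (Fin a)) (C' : Finset (Fin b)) :
    ∃ α β : S, ρ (mn (part A Q) R C') = C α * ρ (A x.1 x.2) + C β := by
  classical
  obtain ⟨N, hN⟩ := mn_cst (A := A) (ρ := ρ) (Q := Q \ {x}) (by
    intro z hz
    rw [Finset.mem_sdiff, Finset.mem_singleton] at hz
    exact hQ z hz.1 hz.2)
  have hQe : Q = {x} ∪ (Q \ {x}) := by
    rw [Finset.union_sdiff_of_subset (Finset.singleton_subset_iff.2 hx)]
  let W : AddSubgroup (MvPolynomial (Fin n) S) :=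
    { carrier := {p | ∃ α β : S, p = C α * ρ (A x.1 x.2) + C β}
      add_mem' := by
        rintro _ _ ⟨α, β, rfl⟩ ⟨α', β', rfl⟩
        exact ⟨α + α', β + β', by rw [C_add, C_add]; ring⟩
      zero_mem' := ⟨0, 0, by simp⟩
      neg_mem' := by
        rintro _ ⟨α, β, rfl⟩
        exact ⟨-α, -β, by rw [C_neg, C_neg]; ring⟩ }
  suffices h : ρ (mn (part A Q) R C') ∈ W from h
  have hQm : mn (part A Q) R C' = mn (part A ({x} ∪ (Q \ {x}))) R C' := by rw [← hQe]
  rw [hQm]
  rw [mn_union A {x} (Q \ {x}) Finset.disjoint_sdiff, map_sum]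
  refine AddSubgroup.sum_mem _ fun z _ => ?_
  rw [← zsmul_eq_mul, map_zsmul]
  refine zsmul_mem ?_ _
  obtain ⟨e, e', he⟩ := mn_single A x z.1 z.2
  rw [map_mul, hN, he, map_add, map_mul, map_intCast, map_intCast]
  refine ⟨(e : S) * mn N (R \ z.1) (C' \ z.2), (e' : S) * mn N (R \ z.1) (C' \ z.2), ?_⟩
  rw [C_mul, C_mul, map_intCast, map_intCast]
  ring

/-- **Cores**, for compressed entries. -/
theorem Dec.core' [IsDomain S] {A : Matrix (Fin a) (Fin b) (MvPolynomial (Fin n) F)}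
    {ρ : MvPolynomial (Fin n) F →ₐ[F] MvPolynomial (Fin n) S} {w K : ℕ} (hw : 1 ≤ w)
    (m : Fin a × Fin b → ℕ) {Q : Finset (Fin a × Fin b)} (h : Dec A w Q)
    (hm : ∀ x ∈ Q, CmpD F K (3 * cw w + 4) (m x) (ρ (A x.1 x.2))) :
    (∀ x ∈ Q, ∃ y : S, ρ (A x.1 x.2) = C y) ∨
    (∃ x ∈ Q, (¬ ∃ y : S, ρ (A x.1 x.2) = C y) ∧
      ∀ z ∈ Q, z ≠ x → ∃ y : S, ρ (A z.1 z.2) = C y) ∨
    ∃ Q' ⊆ Q, (∀ x ∈ Q \ Q', ∃ y : S, ρ (A x.1 x.2) = C y) ∧ (crossRows A Q').card ≤ w ∧
      (crossCols A Q').card ≤ w ∧ ∃ T : Finset S,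
        T.card + (4 * cw w + 4) ≤ K * ∑ x ∈ Q, m x ∧ Kill F A ρ Q' T := by
  classical
  induction h with
  | empty =>
    left
    simp
  | leaf x =>
    by_cases h0 : ∃ y : S, ρ (A x.1 x.2) = C y
    · left
      intro z hz
      rw [Finset.mem_singleton] at hz
      subst hz
      exact h0
    · right
      left
      refine ⟨x, Finset.mem_singleton_self x, h0, fun z hz hne => ?_⟩
      exact absurd (Finset.mem_singleton.1 hz) hne
  | @union Q₁ Q₂ hQ₁ hQ₂ hd hr hc ih₁ ih₂ =>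
    have hcr₁ := hQ₁.cross hw
    have hcr₂ := hQ₂.cross hw
    have hm1 : ∀ x ∈ Q₁, CmpD F K (3 * cw w + 4) (m x) (ρ (A x.1 x.2)) :=
      fun x hx => hm x (Finset.mem_union_left _ hx)
    have hm2 : ∀ x ∈ Q₂, CmpD F K (3 * cw w + 4) (m x) (ρ (A x.1 x.2)) :=
      fun x hx => hm x (Finset.mem_union_right _ hx)
    -- sets of parameters of nonconstant parts
    have key : ∀ Q : Finset (Fin a × Fin b), (crossRows A Q).card ≤ w →
        (crossCols A Q).card ≤ w → (∀ x ∈ Q, CmpD F K (3 * cw w + 4) (m x) (ρ (A x.1 x.2))) →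
        ((∃ x ∈ Q, (¬ ∃ y : S, ρ (A x.1 x.2) = C y) ∧
          ∀ z ∈ Q, z ≠ x → ∃ y : S, ρ (A z.1 z.2) = C y) ∨
        ∃ Q' ⊆ Q, (∀ x ∈ Q \ Q', ∃ y : S, ρ (A x.1 x.2) = C y) ∧ (crossRows A Q').card ≤ w ∧
          (crossCols A Q').card ≤ w ∧ ∃ T : Finset S,
            T.card + (4 * cw w + 4) ≤ K * ∑ x ∈ Q, m x ∧ Kill F A ρ Q' T) →
        ∃ T : Finset S, T.card + (2 * cw w + 2) ≤ K * ∑ x ∈ Q, m x ∧ Kill F A ρ Q T := by
      intro Q hr hc hm h
      rcases h with ⟨x, hx, hx0, hx1⟩ | ⟨Q', hs, hu, hr', hc', T, hT, hK⟩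
      · obtain ⟨_, α, β, g, T, hT, hg, he⟩ := (hm x hx).resolve_left hx0
        have hcr := (Dec.leaf (A := A) (w := w) x).cross hw
        have hK : Kill F A ρ {x} (T ∪ {α, β}) := by
          intro D hD R C' _
          obtain ⟨e, e', he1⟩ := mn_single A x R C'
          rw [he1, map_add, map_mul, map_intCast, map_intCast, he]
          refine Subring.add_mem _ (Subring.mul_mem _ (intCast_mem _ _) (Subring.add_mem _
            (Subring.mul_mem _ (C_mem_Kc (hD α (by simp)))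
              (hg D fun x hx => hD x (Finset.mem_union_left _ hx)))
            (C_mem_Kc (hD β (by simp))))) (intCast_mem _ _)
        obtain ⟨T', h1, h2⟩ := kill_full' (Finset.singleton_subset_iff.2 hx) (by
          intro z hz
          rw [Finset.mem_sdiff, Finset.mem_singleton] at hz
          exact hx1 z hz.1 hz.2) hr hc hcr.1 hcr.2 hK
        refine ⟨T', ?_, h2⟩
        have h3 : (T ∪ {α, β}).card ≤ T.card + 2 :=
          (Finset.card_union_le _ _).trans (Nat.add_le_add_left Finset.card_le_two _)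
        have h4 : K * m x ≤ K * ∑ x ∈ Q, m x :=
          Nat.mul_le_mul_left _ (Finset.single_le_sum (fun _ _ => Nat.zero_le _) hx)
        omega
      · obtain ⟨T', h1, h2⟩ := kill_full' hs hu hr hc hr' hc' hK
        exact ⟨T', by omega, h2⟩
    have hsum : ∑ x ∈ Q₁ ∪ Q₂, m x = ∑ x ∈ Q₁, m x + ∑ x ∈ Q₂, m x := Finset.sum_union hd
    rcases ih₁ hm1 with h01 | h11
    · rcases ih₂ hm2 with h02 | ⟨x, hx, hx0, hx1⟩ | ⟨Q', hs, hu, hr', hc', T, hT, hK⟩
      · left
        intro x hx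
        rcases Finset.mem_union.1 hx with h | h
        · exact h01 x h
        · exact h02 x h
      · right
        left
        refine ⟨x, Finset.mem_union_right _ hx, hx0, fun z hz hne => ?_⟩
        rcases Finset.mem_union.1 hz with h | h
        · exact h01 z h
        · exact hx1 z h hne
      · right
        right
        refine ⟨Q', hs.trans Finset.subset_union_right, fun z hz => ?_, hr', hc', T, ?_, hK⟩
        · rw [Finset.mem_sdiff, Finset.mem_union] at hz
          rcases hz.1 with h | h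
          · exact h01 z h
          · exact hu z (Finset.mem_sdiff.2 ⟨h, hz.2⟩)
        · rw [hsum]
          exact hT.trans (Nat.mul_le_mul_left _ (Nat.le_add_left _ _))
    · rcases ih₂ hm2 with h02 | h12
      · rcases h11 with ⟨x, hx, hx0, hx1⟩ | ⟨Q', hs, hu, hr', hc', T, hT, hK⟩
        · right
          left
          refine ⟨x, Finset.mem_union_left _ hx, hx0, fun z hz hne => ?_⟩
          rcases Finset.mem_union.1 hz with h | h
          · exact hx1 z h hne
          · exact h02 z h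
        · right
          right
          refine ⟨Q', hs.trans Finset.subset_union_left, fun z hz => ?_, hr', hc', T, ?_, hK⟩
          · rw [Finset.mem_sdiff, Finset.mem_union] at hz
            rcases hz.1 with h | h
            · exact hu z (Finset.mem_sdiff.2 ⟨h, hz.2⟩)
            · exact h02 z h
          · rw [hsum]
            exact hT.trans (Nat.mul_le_mul_left _ (Nat.le_add_right _ _))
      · right
        right
        obtain ⟨T₁, h1, h2⟩ := key Q₁ hcr₁.1 hcr₁.2 hm1 h11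
        obtain ⟨T₂, h3, h4⟩ := key Q₂ hcr₂.1 hcr₂.2 hm2 h12
        obtain ⟨T, h5, h6⟩ := h2.union h4 hd
        refine ⟨Q₁ ∪ Q₂, subset_rfl, by simp, hr, hc, T, ?_, h6⟩
        rw [hsum, mul_add]
        omega

/-- Determinants of compressed entries are compressed. -/
theorem Dec.cmp [IsDomain S] {N : ℕ} {A : Matrix (Fin N) (Fin N) (MvPolynomial (Fin n) F)}
    {ρ : MvPolynomial (Fin n) F →ₐ[F] MvPolynomial (Fin n) S} {w K : ℕ} (hw : 1 ≤ w)
    (m : Fin N × Fin N → ℕ) {Q : Finset (Fin N × Fin N)} (h : Dec A w Q)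
    (hQ : ∀ i j, A i j ≠ 0 → (i, j) ∈ Q)
    (hm : ∀ x ∈ Q, CmpD F K (3 * cw w + 4) (m x) (ρ (A x.1 x.2))) :
    CmpD F K (3 * cw w + 4) (∑ x ∈ Q, m x) (ρ A.det) := by
  classical
  by_cases hdet : A.det = 0
  · exact Or.inl ⟨0, by rw [hdet, map_zero, map_zero]⟩
  have hpart : part A Q = A := by
    ext1 i j
    simp only [part]
    split_ifs with hij
    · rfl
    · by_contra hne
      exact hij (hQ i j (fun h0 => hne (by rw [h0])))
  have hrow : inRows A Q = Finset.univ := by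
    rw [Finset.eq_univ_iff_forall]
    intro i
    simp only [inRows, Finset.mem_filter, Finset.mem_univ, true_and]
    refine ⟨?_, fun j hj => hQ i j hj⟩
    by_contra hcon
    push Not at hcon
    exact hdet (Matrix.det_eq_zero_of_row_eq_zero i hcon)
  have hcol : inCols A Q = Finset.univ := by
    rw [Finset.eq_univ_iff_forall]
    intro j
    simp only [inCols, Finset.mem_filter, Finset.mem_univ, true_and]
    refine ⟨?_, fun i hi => hQ i j hi⟩
    by_contra hcon
    push Not at hcon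
    exact hdet (Matrix.det_eq_zero_of_column_eq_zero j hcon)
  have hmn : mn (part A Q) Finset.univ Finset.univ = A.det := by
    rw [hpart, mn_univ]
  obtain ⟨hr, hc⟩ := h.cross hw
  rcases h.core' hw m hm with h0 | ⟨x, hx, hx0, hx1⟩ | ⟨Q', hs, hu, hr', hc', T, hT, hK⟩
  · obtain ⟨N', hN'⟩ := mn_cst h0
    exact Or.inl ⟨_, by rw [← hmn, hN']⟩
  · obtain ⟨h1, α, β, g, T, hT, hg, he⟩ := (hm x hx).resolve_left hx0
    obtain ⟨α', β', he'⟩ := mn_affine hx hx1 Finset.univ Finset.univ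
    have hle : m x ≤ ∑ x ∈ Q, m x := Finset.single_le_sum (fun _ _ => Nat.zero_le _) hx
    refine Or.inr ⟨h1.trans hle, α' * α, α' * β + β', g, T,
      hT.trans (Nat.mul_le_mul_left _ hle), hg, ?_⟩
    rw [← hmn, he', he, C_mul, C_add, C_mul]
    ring
  · obtain ⟨T', h1, h2⟩ := kill_full' hs hu hr hc hr' hc' hK
    refine Or.inr ⟨?_, 1, 0, ρ A.det, T', by omega, fun D hD => ?_, by simp⟩
    · by_contra hcon
      have h3 : ∑ x ∈ Q, m x = 0 := by omega
      rw [h3] at hT
      omega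
    · have h3 := h2 D hD Finset.univ Finset.univ ⟨⟨Finset.subset_univ _, by
        rw [hrow]
        exact Finset.subset_union_left⟩, Finset.subset_univ _, by
        rw [hcol]
        exact Finset.subset_union_left⟩
      rw [hmn] at h3
      exact h3

end Pool.Agent.H964R6
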