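import Mathlib
import Pool.Agent.H964R6.Nest

/-!
Formulas whose gates are determinants of small branch-width.
-/

set_option autoImplicit false

namespace Pool.Agent.H964R6

open MvPolynomial Pool.Agent.H820R5.BW Pool.Agent.H532R2.DT Pool.Agent.H530R2

variable {F : Type*} [Field F] {n : ℕ}

/-- `DF w c o f`: the polynomial `f` is computed by a formula whose leaves are polynomials and
whose gates are determinants of matrices with a branch decomposition of width at most `w`, of any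
size; `o i` is the number of occurrences of the variable `i` in the leaves (counted by `occ c`). -/
inductive DF (w c : ℕ) : (Fin n → ℕ) → MvPolynomial (Fin n) F → Prop
  | leaf (p : MvPolynomial (Fin n) F) : DF w c (occ c p) p
  | det {N : ℕ} (M : Matrix (Fin N) (Fin N) (MvPolynomial (Fin n) F)) (E : Finset (Fin N × Fin N))
      (o : Fin N × Fin N → Fin n → ℕ) (hE : Dec M w E) (hM : ∀ i j, M i j ≠ 0 → (i, j) ∈ E)
      (h : ∀ x ∈ E, DF w c (o x) (M x.1 x.2)) : DF w c (∑ x ∈ E, o x) M.det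

theorem DF.supp {w c : ℕ} {o : Fin n → ℕ} {f : MvPolynomial (Fin n) F} (h : DF w c o f) :
    f ∈ supported F {i | o i ≠ 0} := by
  classical
  induction h with
  | leaf p =>
    rw [mem_supported]
    intro i hi
    exact occ_ne (Finset.mem_coe.1 hi)
  | @det N M E o hE hM h ih =>
    refine det_mem (supported F {i | (∑ x ∈ E, o x) i ≠ 0}).toSubring _ fun i j => ?_
    change M i j ∈ supported F _
    by_cases h0 : M i j = 0
    · rw [h0]
      exact Subalgebra.zero_mem _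
    · refine supported_mono ?_ (ih (i, j) (hM i j h0))
      intro k hk
      simp only [Set.mem_ofPred_eq, Finset.sum_apply] at hk ⊢
      refine Nat.pos_iff_ne_zero.1 (lt_of_lt_of_le (Nat.pos_of_ne_zero hk) ?_)
      exact Finset.single_le_sum (f := fun x : Fin N × Fin N => o x k)
        (fun _ _ => Nat.zero_le _) (hM i j h0)

/-- the factor in the number of parameters -/
def kf (w c : ℕ) : ℕ := 3 * cw w + 4 + (c + 2)

theorem DF.cmp {S : Type*} [CommRing S] [IsDomain S] [Algebra F S] {w c : ℕ} (hw : 1 ≤ w)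
    (V : Finset (Fin n)) (s : Fin n → S)
    (ρ : MvPolynomial (Fin n) F →ₐ[F] MvPolynomial (Fin n) S) (h1 : ∀ j ∈ V, ρ (X j) = X j)
    (h2 : ∀ j ∉ V, ρ (X j) = C (s j)) {o : Fin n → ℕ} {f : MvPolynomial (Fin n) F}
    (h : DF w c o f) : CmpD F (kf w c) (3 * cw w + 4) (∑ i ∈ V, o i) (ρ f) := by
  classical
  induction h with
  | leaf p =>
    rcases Nat.eq_zero_or_pos (∑ i ∈ V, occ c p i) with h0 | h0
    · exact Or.inl ⟨_, rho_supp V s ρ h2 (entry_const (c := c) V p h0)⟩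
    · obtain ⟨T, hT, hD⟩ := entry_params c V s ρ h1 h2 p
      refine Or.inr ⟨h0, 1, 0, ρ p, T, ?_, hD, by simp⟩
      have h3 : kf w c * (∑ i ∈ V, occ c p i) = (3 * cw w + 4 + (c + 1)) *
          (∑ i ∈ V, occ c p i) + ∑ i ∈ V, occ c p i := by
        unfold kf
        ring
      have h4 : (3 * cw w + 4 + (c + 1)) * 1 ≤ (3 * cw w + 4 + (c + 1)) *
          (∑ i ∈ V, occ c p i) := Nat.mul_le_mul_left _ h0
      omega
  | @det N M E o hE hM h ih =>
    have h3 := hE.cmp (ρ := ρ) (K := kf w c) hw (fun x => ∑ i ∈ V, o x i) hM ih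
    have h4 : ∑ i ∈ V, (∑ x ∈ E, o x) i = ∑ x ∈ E, ∑ i ∈ V, o x i := by
      simp only [Finset.sum_apply]
      exact Finset.sum_comm
    rw [h4]
    exact h3

theorem DF.params {S : Type*} [CommRing S] [IsDomain S] [Algebra F S] {w c : ℕ} (hw : 1 ≤ w)
    (V : Finset (Fin n)) (s : Fin n → S)
    (ρ : MvPolynomial (Fin n) F →ₐ[F] MvPolynomial (Fin n) S) (h1 : ∀ j ∈ V, ρ (X j) = X j)
    (h2 : ∀ j ∉ V, ρ (X j) = C (s j)) {o : Fin n → ℕ} {f : MvPolynomial (Fin n) F}
    (h : DF w c o f) : ∃ T : Finset S, T.card ≤ kf w c * (∑ i ∈ V, o i) + 2 ∧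
      ∀ D : Derivation F S S, (∀ x ∈ T, D x = 0) → ρ f ∈ Kc n D := by
  classical
  rcases h.cmp hw V s ρ h1 h2 with ⟨y, hy⟩ | ⟨_, α, β, g, T, hT, hg, he⟩
  · refine ⟨{y}, by simp, fun D hD => ?_⟩
    rw [hy]
    exact C_mem_Kc (hD y (by simp))
  · refine ⟨T ∪ {α, β}, ?_, fun D hD => ?_⟩
    · have h3 : (T ∪ {α, β}).card ≤ T.card + 2 :=
        (Finset.card_union_le _ _).trans (Nat.add_le_add_left Finset.card_le_two _)
      omega
    · rw [he]
      exact Subring.add_mem _ (Subring.mul_mem _ (C_mem_Kc (hD α (by simp)))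
        (hg D fun x hx => hD x (Finset.mem_union_left _ hx))) (C_mem_Kc (hD β (by simp)))

theorem DF.hasPar {S : Type*} [CommRing S] [IsDomain S] [Algebra F S] {w c k : ℕ} (hw : 1 ≤ w)
    {o : Fin k → Fin n → ℕ} {f : Fin k → MvPolynomial (Fin n) F} (h : ∀ j, DF w c (o j) (f j))
    (P : MvPolynomial (Fin k) F) (R : ℕ) :
    HasPar (fun i => ∑ j, o j i) R (kf w c * R + 2 * k) (aeval f P) S := by
  classical
  intro V hV s ρ h1 h2
  have h3 := fun j => (h j).params hw V s ρ h1 h2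
  choose T hT hD using h3
  refine ⟨Finset.univ.biUnion T, ?_, fun D hDT => ?_⟩
  · refine Finset.card_biUnion_le.trans ((Finset.sum_le_sum fun j _ => hT j).trans ?_)
    rw [Finset.sum_add_distrib, ← Finset.mul_sum, Finset.sum_const, Finset.card_univ,
      Fintype.card_fin, smul_eq_mul, mul_comm k 2]
    refine Nat.add_le_add_right (Nat.mul_le_mul_left _ ?_) _
    rw [Finset.sum_comm]
    exact hV
  · have h4 : ρ (aeval f P) = aeval (fun j => ρ (f j)) P := by
      rw [← AlgHom.comp_apply, comp_aeval]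
    rw [h4]
    refine Pool.Agent.H964R5.mvEval_mem_Kc D _ (fun j => hD j D fun x hx => hDT x ?_) P
    exact Finset.mem_biUnion.2 ⟨j, Finset.mem_univ _, hx⟩

/-- The number of seeds. -/
def ellD (w k r : ℕ) : ℕ := (98 * w ^ 2 + 20) * r + 2 * k

theorem DF.seeds [CharZero F] {w k : ℕ} (hw : 1 ≤ w) {o : Fin k → Fin n → ℕ}
    {f : Fin k → MvPolynomial (Fin n) F} (h : ∀ j, DF w (w ^ 2) (o j) (f j))
    (P : MvPolynomial (Fin k) F) (h0 : aeval f P ≠ 0) {g : MvPolynomial (Fin n) F}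
    (hg : g ∣ aeval f P) (s d r : ℕ) (hs : ∑ j, ∑ i, o j i ≤ s) (hr : 1 ≤ r)
    (hd : g.totalDegree ≤ d) :
    ∃ (H : Finset (Fin n)) (bl : Fin n → Fin (s / r + 1)), H.card ≤ s / r ∧ Monotone bl ∧
      ∃ (v : Fin n → ℕ) (y : Fin (ellD w k r) → ℕ) (u : Fin (s / r + 1) → ℕ),
        (∀ i, v i ≤ d) ∧ (∀ k, y k ≤ d) ∧ (∀ b, u b ≤ n * ellD w k r * d) ∧
        MvPolynomial.eval (fun i => if i ∈ H then (v i : F) else
          ∑ l : Fin (ellD w k r), (y l : F) * (u (bl i) : F) ^ (((i : ℕ) + 1) * (l : ℕ)))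
          g ≠ 0 := by
  classical
  refine Pool.Agent.H964R5.exists_seeds_dvd (w := fun i => ∑ j, o j i) hg ?_ s r
    (kf w (w ^ 2) * (2 * (r - 1)) + 2 * k) (ellD w k r) d ?_ hr (DF.hasPar hw h P _) ?_ hd h0
  · refine Pool.Agent.H964R5.aeval_mem _ _ (fun j => ?_) P
    refine supported_mono ?_ (h j).supp
    intro i hi
    simp only [Set.mem_ofPred_eq] at hi ⊢
    refine Nat.pos_iff_ne_zero.1 (lt_of_lt_of_le (Nat.pos_of_ne_zero hi) ?_)
    exact Finset.single_le_sum (f := fun j => o j i) (fun _ _ => Nat.zero_le _)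
      (Finset.mem_univ j)
  · rw [Finset.sum_comm]
    exact hs
  · obtain ⟨r', rfl⟩ : ∃ r', r = r' + 1 := ⟨r - 1, by omega⟩
    have e1 : r' + 1 - 1 = r' := by omega
    rw [e1, ellD, kf, cw]
    have e2 : (98 * w ^ 2 + 20) * (r' + 1) = (3 * ((2 * (2 * w)) ^ 2 + 1) + 4 + (w ^ 2 + 2)) *
        (2 * r') + 2 * r' + (98 * w ^ 2 + 20) := by ring
    omega

end Pool.Agent.H964R6
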